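import Pool.Agent.Lib.MP_61e577_lc.Fwd

/-! Valuations of modal formulas in Heyting algebras with an operator. -/

namespace HAs

open Form

/-- Evaluation of modal formulas in a Heyting algebra with an operator. -/
def ev {H : Type} [HeytingAlgebra H] (b : H → H) (v : ℕ → H) : Form → H
  | atom n => v n
  | bot => ⊥
  | conj A B => ev b v A ⊓ ev b v B
  | disj A B => ev b v A ⊔ ev b v B
  | imp A B => ev b v A ⇨ ev b v B
  | box A => b (ev b v A)

theorem ev_sb {H : Type} [HeytingAlgebra H] (b : H → H) (v : ℕ → H) (s : ℕ → Form) (A : Form) :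
    ev b v (sb s A) = ev b (fun n => ev b v (s n)) A := by
  induction A with
  | atom n => rfl
  | bot => rfl
  | conj A B ihA ihB => simp only [sb, ev, ihA, ihB]
  | disj A B ihA ihB => simp only [sb, ev, ihA, ihB]
  | imp A B ihA ihB => simp only [sb, ev, ihA, ihB]
  | box A ih => simp only [sb, ev, ih]

/-- If the formulas valid under all valuations in a set `S` are theorems of the companion
logic, then the formulas valid under all valuations are theorems of iH*. -/
theorem full_of_sigma {H : Type} [HeytingAlgebra H] (b : H → H) (S : Set H)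
    (h : ∀ B : Form, (∀ v : ℕ → H, (∀ n, v n ∈ S) → ev b v B = ⊤) → IHS B) (A : Form)
    (hA : ∀ v : ℕ → H, ev b v A = ⊤) : IH A := by
  refine ((main A).out 0 1).2 fun s => h _ fun v _ => ?_
  rw [ev_sb]
  exact hA _

end HAs
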