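import Pool.Agent.Lib.MP_61e577_lc.SynD

/-! Modal formulas, the systems iK4, iH* and its Sigma_1 companion, and substitutions. -/

namespace HAs

open Form

/-- The bracket for `Sigma_1` atoms: only implications are guarded. -/
def brs (A : Form) : Form → Form
  | atom n => atom n
  | bot => bot
  | conj B C => conj (brs A B) (brs A C)
  | disj B C => disj (brs A B) (brs A C)
  | imp B C => imp A (imp B C)
  | box B => box B

/-- The relation for `Sigma_1` substitutions. -/
inductive TriS : Form → Form → Prop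
  | a1 {A B : Form} : IK4 (imp A B) → TriS A B
  | a2 {A B C : Form} : TriS A B → TriS B C → TriS A C
  | a3 {A B C : Form} : TriS C A → TriS C B → TriS C (conj A B)
  | a4 {A B : Form} : TriS A B → TriS (box A) (box B)
  | b1 {A B C : Form} : TriS A C → TriS B C → TriS (disj A B) C
  | b2 (X : List (Form × Form)) (C : Form) :
      TriS (conj (imp (cj (imps X)) C) (box (cj (imps X))))
        (dj ((X.map Prod.fst ++ [C]).map (brs (cj (imps X)))))
  | b3 {A B : Form} (C : Form) : TriS A B → TriS (imp (box C) A) (imp (box C) B)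
  | b3a {A B : Form} (n : ℕ) : TriS A B → TriS (imp (atom n) A) (imp (atom n) B)

/-- The companion of iH* for `Sigma_1` substitutions. -/
inductive IHS : Form → Prop
  | ax {A : Form} : IPax A → IHS A
  | k (A B : Form) : IHS (imp (box (imp A B)) (imp (box A) (box B)))
  | four (A : Form) : IHS (imp (box A) (box (box A)))
  | lob (A : Form) : IHS (imp (box (imp (box A) A)) (box A))
  | cp (A : Form) : IHS (imp A (box A))
  | tri {A B : Form} : TriS A B → IHS (imp (box A) (box B))
  | nec {A : Form} : IHS A → IHS (box A)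
  | mp {A B : Form} : IHS (imp A B) → IHS A → IHS B

/-- Modal substitution. -/
def sb (s : ℕ → Form) : Form → Form
  | atom n => s n
  | bot => bot
  | conj B C => conj (sb s B) (sb s C)
  | disj B C => disj (sb s B) (sb s C)
  | imp B C => imp (sb s B) (sb s C)
  | box B => box (sb s B)

/-- Box-free formulas. -/
def bf : Form → Prop
  | atom _ => True
  | bot => True
  | conj B C => bf B ∧ bf C
  | disj B C => bf B ∧ bf C
  | imp B C => bf B ∧ bf C
  | box _ => False

theorem IK4.toIH {A : Form} (h : IK4 A) : IH A := by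
  induction h with
  | ax h => exact .ax h
  | k A B => exact .k A B
  | four A => exact .four A
  | nec _ ih => exact .nec ih
  | mp _ _ ih1 ih2 => exact .mp ih1 ih2

theorem IK4.toIHS {A : Form} (h : IK4 A) : IHS A := by
  induction h with
  | ax h => exact .ax h
  | k A B => exact .k A B
  | four A => exact .four A
  | nec _ ih => exact .nec ih
  | mp _ _ ih1 ih2 => exact .mp ih1 ih2

/-! ### Deductively closed sets -/

/-- Sets containing the axioms of intuitionistic logic, closed under modus ponens. -/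
structure Cl (x : Set Form) : Prop where
  ax : ∀ A, IPax A → A ∈ x
  mp : ∀ {A B}, imp A B ∈ x → A ∈ x → B ∈ x

/-- The deductive extension by one formula. -/
def ext (x : Set Form) (A : Form) : Set Form := {B | imp A B ∈ x}

theorem cl_ik4 : Cl {A | IK4 A} := ⟨fun _ h => .ax h, fun h1 h2 => .mp h1 h2⟩

theorem cl_ih : Cl {A | IH A} := ⟨fun _ h => .ax h, fun h1 h2 => .mp h1 h2⟩

variable {x : Set Form}

theorem Cl.wk (h : Cl x) {A B : Form} (hB : B ∈ x) : imp A B ∈ x := h.mp (h.ax _ (.k B A)) hB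

theorem Cl.refl (h : Cl x) (A : Form) : imp A A ∈ x :=
  h.mp (h.mp (h.ax _ (.s A (imp A A) A)) (h.ax _ (.k A (imp A A)))) (h.ax _ (.k A A))

theorem Cl.ext (h : Cl x) (A : Form) : Cl (ext x A) :=
  ⟨fun _ hB => h.wk (h.ax _ hB), fun {B C} h1 h2 => h.mp (h.mp (h.ax _ (.s A B C)) h1) h2⟩

theorem Cl.sub_ext (h : Cl x) {A B : Form} (hB : B ∈ x) : B ∈ HAs.ext x A := h.wk hB

theorem Cl.self_ext (h : Cl x) (A : Form) : A ∈ HAs.ext x A := h.refl A

theorem Cl.and_iff (h : Cl x) {A B : Form} : conj A B ∈ x ↔ A ∈ x ∧ B ∈ x :=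
  ⟨fun hh => ⟨h.mp (h.ax _ (.andl A B)) hh, h.mp (h.ax _ (.andr A B)) hh⟩,
    fun hh => h.mp (h.mp (h.ax _ (.andi A B)) hh.1) hh.2⟩

theorem Cl.orl (h : Cl x) {A B : Form} (hA : A ∈ x) : disj A B ∈ x := h.mp (h.ax _ (.orl A B)) hA

theorem Cl.orr (h : Cl x) {A B : Form} (hB : B ∈ x) : disj A B ∈ x := h.mp (h.ax _ (.orr A B)) hB

theorem Cl.ore (h : Cl x) {A B C : Form} (h1 : imp A C ∈ x) (h2 : imp B C ∈ x)
    (h3 : disj A B ∈ x) : C ∈ x := h.mp (h.mp (h.mp (h.ax _ (.ore A B C)) h1) h2) h3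

theorem Cl.exf (h : Cl x) {A : Form} (h1 : bot ∈ x) : A ∈ x := h.mp (h.ax _ (.exf A)) h1

theorem Cl.trans (h : Cl x) {A B C : Form} (h1 : imp A B ∈ x) (h2 : imp B C ∈ x) : imp A C ∈ x :=
  (h.ext A).mp (h.sub_ext h2) h1

theorem Cl.cj_iff (h : Cl x) {L : List Form} : cj L ∈ x ↔ ∀ A ∈ L, A ∈ x := by
  induction L with
  | nil => exact ⟨fun _ A hA => by simp at hA, fun _ => h.refl bot⟩
  | cons A L ih => simp only [cj, h.and_iff, ih, List.mem_cons, forall_eq_or_imp]

theorem Cl.dj_of (h : Cl x) {L : List Form} {A : Form} (hA : A ∈ L) (h1 : A ∈ x) : dj L ∈ x := by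
  induction L with
  | nil => simp at hA
  | cons B L ih =>
    rcases List.mem_cons.1 hA with rfl | hA
    · exact h.orl h1
    · exact h.orr (ih hA)

theorem Cl.dj_elim (h : Cl x) {L : List Form} {C : Form} (h1 : ∀ A ∈ L, imp A C ∈ x) :
    imp (dj L) C ∈ x := by
  induction L with
  | nil => exact h.ax _ (.exf C)
  | cons B L ih =>
    have h2 := ih fun A hA => h1 A (List.mem_cons_of_mem _ hA)
    have h3 := h1 B (List.mem_cons_self ..)
    exact h.mp (h.mp (h.ax _ (.ore B (dj L) C)) h3) h2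

theorem br_mp' {B : Form} : ∀ (E : Form) {x : Set Form}, Cl x → B ∈ x → br B E ∈ x → E ∈ x
  | .atom _, _, h, hB, h1 => h.mp h1 hB
  | .bot, _, _, _, h1 => h1
  | .conj C D, _, h, hB, h1 => h.and_iff.2
      ⟨br_mp' C h hB (h.and_iff.1 h1).1, br_mp' D h hB (h.and_iff.1 h1).2⟩
  | .disj C D, _, h, hB, h1 => h.ore (C := disj C D)
      ((h.ext _).orl (br_mp' C (h.ext _) (h.sub_ext hB) (h.self_ext _)))
      ((h.ext _).orr (br_mp' D (h.ext _) (h.sub_ext hB) (h.self_ext _))) h1
  | .imp _ _, _, h, hB, h1 => h.mp h1 hB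
  | .box _, _, _, _, h1 => h1

theorem Cl.br_mp (h : Cl x) {B : Form} (hB : B ∈ x) {E : Form} (h1 : br B E ∈ x) : E ∈ x :=
  br_mp' E h hB h1

/-! ### Derived facts on the two relations -/

theorem Tri.refl (A : Form) : Tri A A := .a1 (cl_ik4.refl A)

theorem ik4_box_mono {A B : Form} (h : IK4 (imp A B)) : IK4 (imp (box A) (box B)) :=
  .mp (.k A B) (.nec h)

theorem ik4_box_and (A B : Form) : IK4 (imp (conj (box A) (box B)) (box (conj A B))) := by
  have h := cl_ik4.ext (conj (box A) (box B))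
  have h0 : conj (box A) (box B) ∈ ext {C | IK4 C} (conj (box A) (box B)) := cl_ik4.self_ext _
  have h1 : imp (box A) (box (imp B (conj A B))) ∈ ext {C | IK4 C} (conj (box A) (box B)) :=
    cl_ik4.sub_ext (ik4_box_mono (.ax (.andi A B)))
  have h2 : imp (box (imp B (conj A B))) (imp (box B) (box (conj A B))) ∈
      ext {C | IK4 C} (conj (box A) (box B)) := cl_ik4.sub_ext (.k _ _)
  exact h.mp (h.mp h2 (h.mp h1 (h.and_iff.1 h0).1)) (h.and_iff.1 h0).2

end HAs
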