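import Pool.Agent.Lib.MP_61e577_lc.Core

/-! Substitution instances of theorems of iH* are theorems of the companion logic. -/

namespace HAs

open Form Set

theorem ik4_sb (s : ℕ → Form) {A : Form} (h : IK4 A) : IK4 (sb s A) := by
  induction h with
  | ax h =>
    cases h with
    | k A B => exact .ax (.k _ _)
    | s A B C => exact .ax (.s _ _ _)
    | andl A B => exact .ax (.andl _ _)
    | andr A B => exact .ax (.andr _ _)
    | andi A B => exact .ax (.andi _ _)
    | orl A B => exact .ax (.orl _ _)
    | orr A B => exact .ax (.orr _ _)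
    | ore A B C => exact .ax (.ore _ _ _)
    | exf A => exact .ax (.exf _)
  | k A B => exact .k _ _
  | four A => exact .four _
  | nec _ ih => exact .nec ih
  | mp _ _ ih1 ih2 => exact .mp ih1 ih2

theorem sb_cj (s : ℕ → Form) (L : List Form) : sb s (cj L) = cj (L.map (sb s)) := by
  induction L with
  | nil => rfl
  | cons A L ih => simp only [cj, sb, List.map_cons, ih]

theorem sb_dj (s : ℕ → Form) (L : List Form) : sb s (dj L) = dj (L.map (sb s)) := by
  induction L with
  | nil => rfl
  | cons A L ih => simp only [dj, sb, List.map_cons, ih]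

theorem sb_imps (s : ℕ → Form) (X : List (Form × Form)) :
    (imps X).map (sb s) = imps (X.map fun e => (sb s e.1, sb s e.2)) := by
  simp [imps, sb]

/-- Weakening of a bracket. -/
theorem brs_wk (B : Form) : ∀ E : Form, IK4 (imp (brs B E) (imp B E))
  | atom n => .ax (.k _ _)
  | bot => .ax (.k _ _)
  | conj C D => by
    have h := (cl_ik4.ext (conj (brs B C) (brs B D)))
    have h0 := h.and_iff.1 (cl_ik4.self_ext (conj (brs B C) (brs B D)))
    have h1 : imp B C ∈ ext {A | IK4 A} (conj (brs B C) (brs B D)) :=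
      h.mp (cl_ik4.sub_ext (brs_wk B C)) h0.1
    have h2 : imp B D ∈ ext {A | IK4 A} (conj (brs B C) (brs B D)) :=
      h.mp (cl_ik4.sub_ext (brs_wk B D)) h0.2
    exact (h.ext B).and_iff.2 ⟨h1, h2⟩
  | disj C D => by
    have h1 : IK4 (imp (brs B C) (imp B (disj C D))) := by
      have h := cl_ik4.ext (brs B C)
      exact h.trans (brs_wk B C) (cl_ik4.sub_ext (.ax (.orl C D)))
    have h2 : IK4 (imp (brs B D) (imp B (disj C D))) := by
      have h := cl_ik4.ext (brs B D)
      exact h.trans (brs_wk B D) (cl_ik4.sub_ext (.ax (.orr C D)))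
    exact .mp (.mp (.ax (.ore _ _ _)) h1) h2
  | imp C D => cl_ik4.refl _
  | box C => .ax (.k _ _)

/-- The bracket of the companion is below the substituted bracket. -/
theorem brs_sb (s : ℕ → Form) (B : Form) : ∀ E : Form,
    IK4 (imp (brs (sb s B) (sb s E)) (sb s (br B E)))
  | atom n => brs_wk _ _
  | bot => cl_ik4.refl _
  | conj C D => by
    have h := (cl_ik4.ext (conj (brs (sb s B) (sb s C)) (brs (sb s B) (sb s D))))
    have h0 := h.and_iff.1 (cl_ik4.self_ext _)
    exact h.and_iff.2 ⟨h.mp (cl_ik4.sub_ext (brs_sb s B C)) h0.1,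
      h.mp (cl_ik4.sub_ext (brs_sb s B D)) h0.2⟩
  | disj C D => .mp (.mp (.ax (.ore _ _ _)) (cl_ik4.trans (brs_sb s B C) (.ax (.orl _ _))))
      (cl_ik4.trans (brs_sb s B D) (.ax (.orr _ _)))
  | imp C D => cl_ik4.refl _
  | box C => cl_ik4.refl _

theorem triS_sb (s : ℕ → Form) {A B : Form} (h : Tri A B) : TriS (sb s A) (sb s B) := by
  induction h with
  | a1 h => exact .a1 (ik4_sb s h)
  | a2 _ _ ih1 ih2 => exact .a2 ih1 ih2
  | a3 _ _ ih1 ih2 => exact .a3 ih1 ih2
  | a4 _ ih => exact .a4 ih
  | b1 _ _ ih1 ih2 => exact .b1 ih1 ih2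
  | b2 X C =>
    let X' := X.map fun e => (sb s e.1, sb s e.2)
    have h1 : sb s (cj (imps X)) = cj (imps X') := by rw [sb_cj, sb_imps]
    have h2 := TriS.b2 X' (sb s C)
    simp only [sb, h1]
    refine .a2 h2 (.a1 ?_)
    rw [sb_dj]
    refine cl_ik4.dj_elim fun F hF => ?_
    rw [List.mem_map] at hF
    obtain ⟨E', hE', rfl⟩ := hF
    have hE : ∃ E ∈ X.map Prod.fst ++ [C], sb s E = E' := by
      rcases List.mem_append.1 hE' with h3 | h3
      · rw [List.mem_map] at h3
        obtain ⟨e', he', rfl⟩ := h3
        rw [List.mem_map] at he'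
        obtain ⟨e, he, rfl⟩ := he'
        exact ⟨e.1, List.mem_append_left _ (List.mem_map_of_mem he), rfl⟩
      · rw [List.mem_singleton] at h3
        exact ⟨C, List.mem_append_right _ (List.mem_singleton_self C), h3.symm⟩
    obtain ⟨E, hE, rfl⟩ := hE
    have h4 := brs_sb s (cj (imps X)) E
    rw [h1] at h4
    refine cl_ik4.trans h4 ?_
    have h5 : sb s (br (cj (imps X)) E) ∈
        ((X.map Prod.fst ++ [C]).map (br (cj (imps X)))).map (sb s) :=
      List.mem_map_of_mem (List.mem_map_of_mem hE)
    exact (cl_ik4.ext _).dj_of h5 (cl_ik4.self_ext _)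
  | b3 C _ ih => exact .b3 _ ih

theorem ihs_sb (s : ℕ → Form) {A : Form} (h : IH A) : IHS (sb s A) := by
  induction h with
  | ax h =>
    exact (ik4_sb s (.ax h)).toIHS
  | k A B => exact .k _ _
  | four A => exact .four _
  | lob A => exact .lob _
  | cp A => exact .cp _
  | tri h => exact .tri (triS_sb s h)
  | nec _ ih => exact .nec ih
  | mp _ _ ih1 ih2 => exact .mp ih1 ih2

/-- Subformulas. -/
def sub : Form → Finset Form
  | atom n => {atom n}
  | bot => {bot}
  | conj A B => insert (conj A B) (sub A ∪ sub B)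
  | disj A B => insert (disj A B) (sub A ∪ sub B)
  | imp A B => insert (imp A B) (sub A ∪ sub B)
  | box A => insert (box A) (sub A)

theorem mem_sub_self (A : Form) : A ∈ sub A := by
  cases A <;> simp [sub]

theorem sub_trans {A B : Form} : B ∈ sub A → sub B ⊆ sub A := by
  induction A with
  | atom n =>
    intro h
    rw [sub, Finset.mem_singleton] at h
    rw [h]
  | bot =>
    intro h
    rw [sub, Finset.mem_singleton] at h
    rw [h]
  | conj A C ihA ihC =>
    intro h
    rw [sub, Finset.mem_insert, Finset.mem_union] at h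
    rcases h with rfl | h | h
    · exact Finset.Subset.refl _
    · exact (ihA h).trans (Finset.subset_union_left.trans (Finset.subset_insert _ _))
    · exact (ihC h).trans (Finset.subset_union_right.trans (Finset.subset_insert _ _))
  | disj A C ihA ihC =>
    intro h
    rw [sub, Finset.mem_insert, Finset.mem_union] at h
    rcases h with rfl | h | h
    · exact Finset.Subset.refl _
    · exact (ihA h).trans (Finset.subset_union_left.trans (Finset.subset_insert _ _))
    · exact (ihC h).trans (Finset.subset_union_right.trans (Finset.subset_insert _ _))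
  | imp A C ihA ihC =>
    intro h
    rw [sub, Finset.mem_insert, Finset.mem_union] at h
    rcases h with rfl | h | h
    · exact Finset.Subset.refl _
    · exact (ihA h).trans (Finset.subset_union_left.trans (Finset.subset_insert _ _))
    · exact (ihC h).trans (Finset.subset_union_right.trans (Finset.subset_insert _ _))
  | box A ihA =>
    intro h
    rw [sub, Finset.mem_insert] at h
    rcases h with rfl | h
    · exact Finset.Subset.refl _
    · exact (ihA h).trans (Finset.subset_insert _ _)

theorem subcl (A : Form) : SubCl (sub A) where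
  conj := fun {B C} h => by
    have h1 := sub_trans h
    exact ⟨h1 (by simp [sub, mem_sub_self]), h1 (by simp [sub, mem_sub_self])⟩
  disj := fun {B C} h => by
    have h1 := sub_trans h
    exact ⟨h1 (by simp [sub, mem_sub_self]), h1 (by simp [sub, mem_sub_self])⟩
  imp := fun {B C} h => by
    have h1 := sub_trans h
    exact ⟨h1 (by simp [sub, mem_sub_self]), h1 (by simp [sub, mem_sub_self])⟩
  box := fun {B} h => by
    have h1 := sub_trans h
    exact h1 (by simp [sub, mem_sub_self])

theorem IsSys.sub_all {Φ : Finset Form} {K : Finset Spot} (hK : IsSys Φ K) : K ⊆ allSpots Φ := by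
  intro k hk
  exact mem_allSpots.2 ⟨(hK.sat k hk _ (hK.tE k hk)).sub, fun τ hτ => (hK.sat k hk τ hτ).sub,
    hK.rs k hk⟩

/-- The characterisation of iH*. -/
theorem main (A : Form) : List.TFAE [IH A, ∀ s : ℕ → Form, IHS (sb s A),
    ∀ s : ℕ → Form, (∀ n, bf (s n)) → IHS (sb s A),
    ∀ s : ℕ → Form, (∀ n, bf (s n)) → ∀ M : Mdl, M.Closed → ∀ u : M.W, M.frc (sb s A) u,
    ∀ K ⊆ allSpots (sub A), IsSys (sub A) K → ∀ k ∈ K, A ∈ k.t] := by
  tfae_have 1 → 2 := fun h s => ihs_sb s h
  tfae_have 2 → 3 := fun h s _ => h s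
  tfae_have 3 → 4 := fun h s hs M hM u => Mdl.sound hM (h s hs) u
  tfae_have 4 → 5 := by
    intro h K _ hK k hk
    by_contra hcon
    obtain ⟨s, hs, M, hM, u, hu⟩ := sys_refutes (subcl A) hK hk (mem_sub_self A) hcon
    exact hu (h s hs M hM u)
  tfae_have 5 → 1 := by
    intro h
    by_contra hcon
    obtain ⟨k, hk, hkA⟩ := canK_refutes (Φ := sub A) hcon
    exact hkA (h _ (canK_sys (subcl A)).sub_all (canK_sys (subcl A)) k hk)
  tfae_finish

end HAs
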