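import Pool.Agent.Lib.MP_61e577_lc.Syn

/-! Prime theories of iH*, sets closed under the relation, and the extension lemma. -/

namespace HAs

open Form Set

/-- Theories of iH*. -/
structure Th (x : Set Form) : Prop extends Cl x where
  ih : ∀ A, IH A → A ∈ x

/-- Prime theories. -/
structure PT (x : Set Form) : Prop extends Th x where
  bot : Form.bot ∉ x
  or : ∀ {A B}, disj A B ∈ x → A ∈ x ∨ B ∈ x

/-- Closed under the relation. -/
def TC (x : Set Form) : Prop := ∀ {A B}, Tri A B → A ∈ x → B ∈ x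

theorem th_ih : Th {A | IH A} := { cl_ih with ih := fun _ h => h }

theorem Th.ext {x : Set Form} (h : Th x) (A : Form) : Th (HAs.ext x A) :=
  { h.toCl.ext A with ih := fun _ hB => h.toCl.sub_ext (h.ih _ hB) }

theorem PT.dj {x : Set Form} (h : PT x) : ∀ {L : List Form}, dj L ∈ x → ∃ A ∈ L, A ∈ x
  | [], h1 => (h.bot h1).elim
  | A :: L, h1 => by
    rcases h.or h1 with h2 | h2
    · exact ⟨A, List.mem_cons_self .., h2⟩
    · obtain ⟨B, hB, h3⟩ := h.dj h2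
      exact ⟨B, List.mem_cons_of_mem _ hB, h3⟩

theorem Th.box_of {x : Set Form} (h : Th x) {A : Form} (hA : A ∈ x) : box A ∈ x :=
  h.mp (h.ih _ (.cp A)) hA

theorem Th.box_mp {x : Set Form} (h : Th x) {A B : Form} (h1 : box (imp A B) ∈ x)
    (h2 : box A ∈ x) : box B ∈ x := h.mp (h.mp (h.ih _ (.k A B)) h1) h2

theorem Th.box_cj {x : Set Form} (h : Th x) {L : List Form} (h1 : ∀ A ∈ L, box A ∈ x) :
    box (cj L) ∈ x := by
  induction L with
  | nil => exact h.ih _ (.nec (cl_ih.refl _))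
  | cons A L ih =>
    have h2 := ih fun B hB => h1 B (List.mem_cons_of_mem _ hB)
    have h3 := h1 A (List.mem_cons_self ..)
    exact h.mp (h.ih _ (ik4_box_and A (cj L)).toIH) (h.toCl.and_iff.2 ⟨h3, h2⟩)

theorem TC.th {x : Set Form} (h : Th x) : TC {A | box A ∈ x} :=
  fun {_ _} hT h1 => h.mp (h.ih _ (.tri hT)) h1

theorem Th.gx {x : Set Form} (h : Th x) : Th {A | box A ∈ x} where
  ax A hA := h.ih _ (.nec (.ax hA))
  mp h1 h2 := h.box_mp h1 h2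
  ih A hA := h.ih _ (.nec hA)

/-! ### Lindenbaum lemma -/

theorem lind {x N : Set Form} (hx : Th x) (hb : Form.bot ∈ N)
    (hN : ∀ A ∈ N, ∀ B ∈ N, disj A B ∈ N) (hd : ∀ A ∈ x, A ∉ N) :
    ∃ y, x ⊆ y ∧ PT y ∧ (∀ A ∈ y, A ∉ N) ∧ ∀ A, A ∉ y → ∃ C ∈ N, imp A C ∈ y := by
  let S : Set (Set Form) := {y | x ⊆ y ∧ Th y ∧ ∀ A ∈ y, A ∉ N}
  have hxS : x ∈ S := ⟨subset_rfl, hx, hd⟩
  obtain ⟨y, hxy, hy⟩ := zorn_subset_nonempty S (by
    intro c hcS hc hne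
    obtain ⟨z0, hz0⟩ := hne
    refine ⟨⋃₀ c, ⟨fun _ hA => ⟨z0, hz0, (hcS hz0).1 hA⟩, ?_, ?_⟩, fun _ hs => subset_sUnion_of_mem hs⟩
    · refine ⟨⟨fun A hA => ⟨z0, hz0, (hcS hz0).2.1.ax A hA⟩, ?_⟩,
        fun A hA => ⟨z0, hz0, (hcS hz0).2.1.ih A hA⟩⟩
      rintro A B ⟨z1, hz1, h1⟩ ⟨z2, hz2, h2⟩
      rcases hc.total hz1 hz2 with h | h
      · exact ⟨z2, hz2, (hcS hz2).2.1.mp (h h1) h2⟩
      · exact ⟨z1, hz1, (hcS hz1).2.1.mp h1 (h h2)⟩
    · rintro A ⟨z, hz, hA⟩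
      exact (hcS hz).2.2 A hA) x hxS
  have hyS : y ∈ S := hy.prop
  have hmax : ∀ A, A ∉ y → ∃ C ∈ N, imp A C ∈ y := by
    intro A hA
    by_contra hcon
    push Not at hcon
    have h1 : ext y A ∈ S := by
      refine ⟨fun B hB => hyS.2.1.toCl.sub_ext (hyS.1 hB), hyS.2.1.ext A, ?_⟩
      intro B hB hBN
      exact hcon B hBN hB
    have h2 : y ⊆ ext y A := fun B hB => hyS.2.1.toCl.sub_ext hB
    have h3 := hy.le_of_ge h1 h2
    exact hA (h3 (hyS.2.1.toCl.self_ext A))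
  refine ⟨y, hyS.1, { hyS.2.1 with bot := fun h => hyS.2.2 _ h hb, or := ?_ }, hyS.2.2, hmax⟩
  intro A B hAB
  by_contra hcon
  push Not at hcon
  obtain ⟨C, hC, h1⟩ := hmax A hcon.1
  obtain ⟨D, hD, h2⟩ := hmax B hcon.2
  have hcl := hyS.2.1.toCl
  have h3 : disj C D ∈ y := hcl.ore (hcl.trans h1 (hcl.ax _ (.orl C D)))
    (hcl.trans h2 (hcl.ax _ (.orr C D))) hAB
  exact hyS.2.2 _ h3 (hN C hC D hD)

/-- Avoiding one formula. -/
theorem lind1 {x : Set Form} (hx : Th x) {A : Form} (hA : A ∉ x) :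
    ∃ y, x ⊆ y ∧ PT y ∧ A ∉ y := by
  obtain ⟨y, h1, h2, h3, -⟩ := lind (N := {B | imp B A ∈ x}) hx (hx.ax _ (.exf A))
    (fun B hB C hC => hx.mp (hx.mp (hx.ax _ (.ore B C A)) hB) hC)
    (fun B hB h => hA (hx.mp h hB))
  exact ⟨y, h1, h2, fun h => h3 A h (hx.toCl.refl A)⟩

/-! ### Closed prime sets inside a prime theory -/

theorem Tri.and_box {A D B : Form} (h : Tri (conj A (box D)) B) : Tri A (imp (box D) B) := by
  have h1 : Tri (imp (box D) (conj A (box D))) (imp (box D) B) := .b3 D h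
  refine .a2 (.a1 ?_) h1
  have h2 := (cl_ik4.ext A).ext (box D)
  have h3 : conj A (box D) ∈ ext (ext {C | IK4 C} A) (box D) :=
    h2.and_iff.2 ⟨(cl_ik4.ext A).sub_ext (cl_ik4.self_ext A), (cl_ik4.ext A).self_ext _⟩
  exact h3

theorem good_exists {G x : Set Form} (hG : Th G) (hT : TC G) (hx : PT x) (hGx : G ⊆ x) :
    ∃ P, PT P ∧ TC P ∧ G ⊆ P ∧ P ⊆ x ∧ ∀ D, box D ∈ x → box D ∈ P := by
  let P0 : Set Form := {B | ∃ A D, A ∈ G ∧ box D ∈ x ∧ Tri (conj A (box D)) B}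
  let top : Form := imp Form.bot Form.bot
  have htG : top ∈ G := hG.toCl.refl _
  have htx : box top ∈ x := hx.box_of (hGx htG)
  have hand : ∀ A D, Tri (conj A (box D)) A := fun A D => .a1 (.ax (.andl _ _))
  have hP0x : P0 ⊆ x := by
    rintro B ⟨A, D, hA, hD, h⟩
    exact hx.mp (hGx (hT h.and_box hA)) hD
  have hTP0 : TC P0 := by
    rintro B C hBC ⟨A, D, hA, hD, h⟩
    exact ⟨A, D, hA, hD, h.a2 hBC⟩
  have hGP0 : G ⊆ P0 := fun A hA => ⟨A, top, hA, htx, hand _ _⟩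
  have hand0 : ∀ B ∈ P0, ∀ C ∈ P0, conj B C ∈ P0 := by
    rintro B ⟨A, D, hA, hD, h⟩ C ⟨A', D', hA', hD', h'⟩
    refine ⟨conj A A', conj D D', hG.toCl.and_iff.2 ⟨hA, hA'⟩, ?_, ?_⟩
    · exact hx.mp (hx.ih _ (ik4_box_and D D').toIH) (hx.toCl.and_iff.2 ⟨hD, hD'⟩)
    · refine .a3 (.a2 (.a1 ?_) h) (.a2 (.a1 ?_) h')
      · have h2 := cl_ik4.ext (conj (conj A A') (box (conj D D')))
        have h3 := h2.and_iff.1 (cl_ik4.self_ext (conj (conj A A') (box (conj D D'))))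
        have h4 : box D ∈ ext {C | IK4 C} (conj (conj A A') (box (conj D D'))) :=
          h2.mp (cl_ik4.sub_ext (ik4_box_mono (.ax (.andl D D')))) h3.2
        exact h2.and_iff.2 ⟨(h2.and_iff.1 h3.1).1, h4⟩
      · have h2 := cl_ik4.ext (conj (conj A A') (box (conj D D')))
        have h3 := h2.and_iff.1 (cl_ik4.self_ext (conj (conj A A') (box (conj D D'))))
        have h4 : box D' ∈ ext {C | IK4 C} (conj (conj A A') (box (conj D D'))) :=
          h2.mp (cl_ik4.sub_ext (ik4_box_mono (.ax (.andr D D')))) h3.2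
        exact h2.and_iff.2 ⟨(h2.and_iff.1 h3.1).2, h4⟩
  have hThP0 : Th P0 := by
    refine ⟨⟨fun A hA => hGP0 (hG.ax A hA), ?_⟩, fun A hA => hGP0 (hG.ih A hA)⟩
    intro B C h1 h2
    refine hTP0 (.a1 ?_) (hand0 _ h1 _ h2)
    have h3 := cl_ik4.ext (conj (imp B C) B)
    have h4 := h3.and_iff.1 (cl_ik4.self_ext (conj (imp B C) B))
    exact h3.mp h4.1 h4.2
  let S : Set (Set Form) := {y | P0 ⊆ y ∧ Th y ∧ TC y ∧ y ⊆ x}
  have hxS : P0 ∈ S := ⟨subset_rfl, hThP0, hTP0, hP0x⟩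
  obtain ⟨P, hP0P, hP⟩ := zorn_subset_nonempty S (by
    intro c hcS hc hne
    obtain ⟨z0, hz0⟩ := hne
    refine ⟨⋃₀ c, ⟨fun A hA => ⟨z0, hz0, (hcS hz0).1 hA⟩, ?_, ?_, ?_⟩,
      fun s hs => subset_sUnion_of_mem hs⟩
    · refine ⟨⟨fun A hA => ⟨z0, hz0, (hcS hz0).2.1.ax A hA⟩, ?_⟩,
        fun A hA => ⟨z0, hz0, (hcS hz0).2.1.ih A hA⟩⟩
      rintro A B ⟨z1, hz1, h1⟩ ⟨z2, hz2, h2⟩
      rcases hc.total hz1 hz2 with h | h
      · exact ⟨z2, hz2, (hcS hz2).2.1.mp (h h1) h2⟩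
      · exact ⟨z1, hz1, (hcS hz1).2.1.mp h1 (h h2)⟩
    · rintro A B hAB ⟨z, hz, hA⟩
      exact ⟨z, hz, (hcS hz).2.2.1 hAB hA⟩
    · rintro A ⟨z, hz, hA⟩
      exact (hcS hz).2.2.2 hA) P0 hxS
  have hPS : P ∈ S := hP.prop
  obtain ⟨-, hPT, hPC, hPx⟩ := hPS
  have hmax : ∀ X, X ∉ P → ∃ Q ∈ P, ∃ E, Tri (conj Q X) E ∧ E ∉ x := by
    intro X hX
    by_contra hcon
    push Not at hcon
    let y : Set Form := {E | ∃ Q ∈ P, Tri (conj Q X) E}
    have hyC : TC y := by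
      rintro A B hAB ⟨Q, hQ, h⟩
      exact ⟨Q, hQ, h.a2 hAB⟩
    have hPy : P ⊆ y := fun A hA => ⟨A, hA, .a1 (.ax (.andl _ _))⟩
    have hyand : ∀ B ∈ y, ∀ C ∈ y, conj B C ∈ y := by
      rintro B ⟨Q, hQ, h⟩ C ⟨Q', hQ', h'⟩
      refine ⟨conj Q Q', hPT.toCl.and_iff.2 ⟨hQ, hQ'⟩, .a3 (.a2 (.a1 ?_) h) (.a2 (.a1 ?_) h')⟩
      · have h2 := cl_ik4.ext (conj (conj Q Q') X)
        have h3 := h2.and_iff.1 (cl_ik4.self_ext (conj (conj Q Q') X))
        exact h2.and_iff.2 ⟨(h2.and_iff.1 h3.1).1, h3.2⟩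
      · have h2 := cl_ik4.ext (conj (conj Q Q') X)
        have h3 := h2.and_iff.1 (cl_ik4.self_ext (conj (conj Q Q') X))
        exact h2.and_iff.2 ⟨(h2.and_iff.1 h3.1).2, h3.2⟩
    have hyT : Th y := by
      refine ⟨⟨fun A hA => hPy (hPT.ax A hA), ?_⟩, fun A hA => hPy (hPT.ih A hA)⟩
      intro B C h1 h2
      refine hyC (.a1 ?_) (hyand _ h1 _ h2)
      have h3 := cl_ik4.ext (conj (imp B C) B)
      have h4 := h3.and_iff.1 (cl_ik4.self_ext (conj (imp B C) B))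
      exact h3.mp h4.1 h4.2
    have hyS : y ∈ S := ⟨hP0P.trans hPy, hyT, hyC, fun E ⟨Q, hQ, h⟩ => hcon Q hQ E h⟩
    have h5 := hP.le_of_ge hyS hPy
    exact hX (h5 ⟨imp Form.bot Form.bot, hPT.toCl.refl _, .a1 (.ax (.andr _ _))⟩)
  refine ⟨P, { hPT with bot := fun h => hx.bot (hPx h), or := ?_ }, hPC, hGP0.trans hP0P, hPx, ?_⟩
  · intro X Y hXY
    by_contra hcon
    push Not at hcon
    obtain ⟨Q1, hQ1, E1, hE1, hE1x⟩ := hmax X hcon.1
    obtain ⟨Q2, hQ2, E2, hE2, hE2x⟩ := hmax Y hcon.2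
    let Q := conj Q1 Q2
    have hQ : Q ∈ P := hPT.toCl.and_iff.2 ⟨hQ1, hQ2⟩
    have h1 : Tri (conj Q X) (disj E1 E2) := by
      refine .a2 (.a1 ?_) (.a2 hE1 (.a1 (.ax (.orl _ _))))
      have h2 := cl_ik4.ext (conj (conj Q1 Q2) X)
      have h3 := h2.and_iff.1 (cl_ik4.self_ext (conj (conj Q1 Q2) X))
      exact h2.and_iff.2 ⟨(h2.and_iff.1 h3.1).1, h3.2⟩
    have h2 : Tri (conj Q Y) (disj E1 E2) := by
      refine .a2 (.a1 ?_) (.a2 hE2 (.a1 (.ax (.orr _ _))))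
      have h2 := cl_ik4.ext (conj (conj Q1 Q2) Y)
      have h3 := h2.and_iff.1 (cl_ik4.self_ext (conj (conj Q1 Q2) Y))
      exact h2.and_iff.2 ⟨(h2.and_iff.1 h3.1).2, h3.2⟩
    have h3 : Tri (conj Q (disj X Y)) (disj E1 E2) := by
      refine .a2 (.a1 ?_) (.b1 h1 h2)
      have h4 := cl_ik4.ext (conj Q (disj X Y))
      have h5 := h4.and_iff.1 (cl_ik4.self_ext (conj Q (disj X Y)))
      refine h4.ore (A := X) (B := Y) ?_ ?_ h5.2
      · have h6 := h4.ext X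
        exact h6.orl (h6.and_iff.2 ⟨h4.sub_ext h5.1, h4.self_ext X⟩)
      · have h6 := h4.ext Y
        exact h6.orr (h6.and_iff.2 ⟨h4.sub_ext h5.1, h4.self_ext Y⟩)
    have h4 : disj E1 E2 ∈ x := hPx (hPC h3 (hPT.toCl.and_iff.2 ⟨hQ, hXY⟩))
    rcases hx.or h4 with h | h
    · exact hE1x h
    · exact hE2x h
  · intro D hD
    exact hP0P ⟨top, D, htG, hD, .a1 (.ax (.andr _ _))⟩

/-! ### The extension lemma -/

theorem extension {P : Set Form} (hP : PT P) (hC : TC P) (V : Set (Set Form))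
    (hV : ∀ v ∈ V, PT v ∧ P ⊆ v) :
    ∃ u, PT u ∧ P ⊆ u ∧ (∀ v ∈ V, u ⊆ v) ∧ (∀ D, box D ∈ u → box D ∈ P) ∧
      ∀ X Y, (∀ v ∈ V, imp X Y ∈ v) → box (imp X Y) ∈ P → X ∉ u → imp X Y ∈ u := by
  let N0 : Set Form := {Z | (∃ v ∈ V, Z ∉ v) ∨ ∃ D, Z = box D ∧ box D ∉ P}
  let x : Set Form := {C | ∃ X : List (Form × Form), (∀ e ∈ X, e.1 ∈ N0 ∧
    (∀ v ∈ V, imp e.1 e.2 ∈ v) ∧ box (imp e.1 e.2) ∈ P) ∧ imp (cj (imps X)) C ∈ P}
  let N : Set Form := {C | ∃ L : List Form, (∀ Z ∈ L, Z ∈ N0) ∧ imp C (dj L) ∈ P}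
  have hcl := hP.toCl
  have happ : ∀ X Y : List (Form × Form), imp (cj (imps (X ++ Y))) (cj (imps X)) ∈ P ∧
      imp (cj (imps (X ++ Y))) (cj (imps Y)) ∈ P := by
    intro X Y
    have h1 := hcl.ext (cj (imps (X ++ Y)))
    have h2 := h1.cj_iff.1 (hcl.self_ext (cj (imps (X ++ Y))))
    constructor
    · refine h1.cj_iff.2 fun A hA => h2 A ?_
      simp only [imps, List.map_append, List.mem_append]
      exact Or.inl hA
    · refine h1.cj_iff.2 fun A hA => h2 A ?_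
      simp only [imps, List.map_append, List.mem_append]
      exact Or.inr hA
  have hPx : P ⊆ x := fun C hC' => ⟨[], by simp, hcl.wk hC'⟩
  have hThx : Th x := by
    refine ⟨⟨fun A hA => hPx (hcl.ax A hA), ?_⟩, fun A hA => hPx (hP.ih A hA)⟩
    rintro A B ⟨X, hX, h1⟩ ⟨Y, hY, h2⟩
    refine ⟨X ++ Y, ?_, ?_⟩
    · intro e he
      rcases List.mem_append.1 he with h | h
      · exact hX e h
      · exact hY e h
    · have h3 := hcl.ext (cj (imps (X ++ Y)))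
      exact h3.mp (hcl.trans (happ X Y).1 h1) (hcl.trans (happ X Y).2 h2)
  have hdis : ∀ A ∈ x, A ∉ N := by
    rintro A ⟨X, hX, h1⟩ ⟨L, hL, h2⟩
    have h3 : imp (cj (imps X)) (dj L) ∈ P := hcl.trans h1 h2
    have h4 : box (cj (imps X)) ∈ P := by
      refine hP.box_cj fun A hA => ?_
      simp only [imps, List.mem_map] at hA
      obtain ⟨e, he, rfl⟩ := hA
      exact (hX e he).2.2
    have h5 := hC (.b2 X (dj L)) (hcl.and_iff.2 ⟨h3, h4⟩)
    have hbr : ∀ Z ∈ N0, br (cj (imps X)) Z ∉ P := by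
      rintro Z (⟨v, hv, hZ⟩ | ⟨D, rfl, hD⟩) hbr
      · have h6 : cj (imps X) ∈ v := by
          refine (hV v hv).1.toCl.cj_iff.2 fun A hA => ?_
          simp only [imps, List.mem_map] at hA
          obtain ⟨e, he, rfl⟩ := hA
          exact (hX e he).2.1 v hv
        exact hZ ((hV v hv).1.toCl.br_mp h6 ((hV v hv).2 hbr))
      · exact hD hbr
    have hbrdj : ∀ L : List Form, (∀ Z ∈ L, Z ∈ N0) → br (cj (imps X)) (dj L) ∉ P := by
      intro L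
      induction L with
      | nil => intro _ h; exact hP.bot h
      | cons A L ih =>
        intro hL h
        rcases hP.or h with h | h
        · exact hbr A (hL A (List.mem_cons_self ..)) h
        · exact ih (fun Z hZ => hL Z (List.mem_cons_of_mem _ hZ)) h
    obtain ⟨E, hE, hEP⟩ := hP.dj h5
    rw [List.mem_map] at hE
    obtain ⟨E, hE, rfl⟩ := hE
    rw [List.mem_append, List.mem_map, List.mem_singleton] at hE
    rcases hE with ⟨e, he, rfl⟩ | rfl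
    · exact hbr _ (hX e he).1 hEP
    · exact hbrdj L hL hEP
  have hbN : Form.bot ∈ N := ⟨[], by simp, hcl.refl _⟩
  have hNd : ∀ A ∈ N, ∀ B ∈ N, disj A B ∈ N := by
    rintro A ⟨L, hL, h1⟩ B ⟨M, hM, h2⟩
    refine ⟨L ++ M, ?_, ?_⟩
    · intro e he
      rcases List.mem_append.1 he with h | h
      · exact hL e h
      · exact hM e h
    · have h3 : imp (dj L) (dj (L ++ M)) ∈ P := hcl.dj_elim fun A hA =>
        (hcl.ext A).dj_of (List.mem_append_left _ hA) (hcl.self_ext A)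
      have h4 : imp (dj M) (dj (L ++ M)) ∈ P := hcl.dj_elim fun A hA =>
        (hcl.ext A).dj_of (List.mem_append_right _ hA) (hcl.self_ext A)
      exact hcl.mp (hcl.mp (hcl.ax _ (.ore A B _)) (hcl.trans h1 h3)) (hcl.trans h2 h4)
  obtain ⟨u, hxu, hu, hud, humax⟩ := lind hThx hbN hNd hdis
  have hN0 : ∀ Z ∈ N0, Z ∉ u := fun Z hZ h => hud Z h ⟨[Z], by simpa using hZ,
    hcl.ax _ (.orl Z Form.bot)⟩
  refine ⟨u, hu, hPx.trans hxu, ?_, ?_, ?_⟩
  · intro v hv Z hZ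
    by_contra hcon
    exact hN0 Z (Or.inl ⟨v, hv, hcon⟩) hZ
  · intro D hD
    by_contra hcon
    exact hN0 _ (Or.inr ⟨D, rfl, hcon⟩) hD
  · intro X Y h1 h2 h3
    obtain ⟨C, ⟨L, hL, hCL⟩, hXC⟩ := humax X h3
    have hucl := hu.toCl
    have h4 : imp X (dj L) ∈ u := hucl.trans hXC (hxu (hPx hCL))
    have h5 : imp (dj L) (imp X Y) ∈ u := by
      refine hucl.dj_elim fun Z hZ => hxu ⟨[(Z, imp X Y)], ?_, ?_⟩
      · intro e he
        rw [List.mem_singleton] at he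
        subst he
        refine ⟨hL Z hZ, fun v hv => (hV v hv).1.toCl.wk (h1 v hv), ?_⟩
        exact hP.box_mp (hP.ih _ (.nec (.ax (.k _ _)))) h2
      · have h6 := hcl.ext (cj (imps [(Z, imp X Y)]))
        have h7 := h6.cj_iff.1 (hcl.self_ext (cj (imps [(Z, imp X Y)])))
        exact h7 _ (by simp [imps])
    have h6 := hucl.ext X
    exact h6.mp (h6.mp (hucl.sub_ext h5) h4) (hucl.self_ext X)

end HAs
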