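import Pool.Agent.Lib.MP_61e577_lc.Stage

/-! The substitution theorem. -/

namespace HAs

open Form Set

variable {Φ : Finset Form} {K : Finset Spot} {hK : IsSys Φ K} {ix : Spot → ℕ}

theorem init (hΦ : SubCl Φ) (hix : Set.InjOn ix K) {F F0 : Finset Spot} (hF0 : UpK K F0)
    (hF : UpK K F) {k : Spot} (hk : k ∈ F) (hk0 : k ∉ F0) (hFF : ∀ l ∈ F, l = k ∨ l ∈ F0)
    (hF0F : F0 ⊆ F) {P : ℕ → Set (Wd K)} (hP : Valid hK ix F0 P) :
    ∃ Q, Mid hK ix F k Q := by
  classical
  have hkK : k ∈ K := hF.1 hk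
  have hF0up : ∀ {u v : Wd K}, lew u v → u.1.tag ∈ F0 → v.1.tag ∈ F0 :=
    fun {u v} h h1 => hF0.2 _ h1 _ (tagK v) (lew_tag hK h)
  have hmonoP : ∀ n u v, lew u v → u ∈ P n → v ∈ P n := fun n u v h h1 => (hP.dfn n).mono h h1
  let Q : ℕ → Set (Wd K) := fun n =>
    if atom n ∈ k.t then {u | u ∈ {u : Wd K | u.1.tag ∈ F} ∧
      u ∈ {u | ∀ v, lew u v → v ∈ {v : Wd K | v.1.tag ∈ F0} → v ∈ P n}}
    else P n
  have hQ1 : ∀ n u, atom n ∈ k.t →
      (u ∈ Q n ↔ u.1.tag ∈ F ∧ ∀ v, lew u v → v.1.tag ∈ F0 → v ∈ P n) := by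
    intro n u hn
    simp only [Q, if_pos hn]
    exact Iff.rfl
  have hQ2 : ∀ n, atom n ∉ k.t → Q n = P n := by
    intro n hn
    simp only [Q, if_neg hn]
  have hQd : ∀ n, Dfn hK ix (Q n) := by
    intro n
    by_cases hn : atom n ∈ k.t
    · simp only [Q, if_pos hn]
      refine (Dfn.tag hix (p := fun l => l ∈ F) ?_).inter
        (Dfn.himp (Dfn.tag hix (p := fun l => l ∈ F0) ?_) (hP.dfn n))
      · exact fun l _ m hm h h1 => hF.2 l h1 m hm h
      · exact fun l _ m hm h h1 => hF0.2 l h1 m hm h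
    · rw [hQ2 n hn]
      exact hP.dfn n
  have hmonoQ : ∀ n u v, lew u v → u ∈ Q n → v ∈ Q n := fun n u v h h1 => (hQd n).mono h h1
  let S : Set (Wd K) := {u | u.1.tag ∈ F0}
  have hS : ∀ u v, lew u v → u ∈ S → v ∈ S := fun u v h h1 => hF0up h h1
  have hQP : ∀ n, ∀ u ∈ S, u ∈ Q n ↔ u ∈ P n := by
    intro n u hu
    by_cases hn : atom n ∈ k.t
    · rw [hQ1 n u hn]
      exact ⟨fun h => h.2 u (lew_refl u) hu, fun h => ⟨hF0F hu, fun v hv _ => hmonoP n u v hv h⟩⟩
    · rw [hQ2 n hn]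
  have htyp : ∀ u : Wd K, u.1.tag ∈ F0 → typ Φ Q u = typ Φ P u := fun u hu => typ_eq hK hS hQP hu
  have hgood0 : ∀ u : Wd K, u.1.tag ∈ F0 → good Φ Q u := by
    intro u hu v hv
    rw [htyp v (hF0up hv hu)]
    exact hP.ok v (hF0up hv hu)
  refine ⟨Q, hQd, ?_, ?_, ?_⟩
  · intro n u hu
    by_cases hn : atom n ∈ k.t
    · exact ((hQ1 n u hn).1 hu).1
    · rw [hQ2 n hn] at hu
      exact hF0F (hP.sup n u hu)
  · intro u hu huk
    rcases hFF _ hu with h | h
    · exact (huk h).elim
    · exact hgood0 u h u (lew_refl u)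
  · intro l hl
    rcases hFF l hl with rfl | hl0
    swap
    · obtain ⟨u, hu1, hu2⟩ := hP.gen l hl0
      have hu0 : u.1.tag ∈ F0 := by rw [hu1]; exact hl0
      exact ⟨u, hu1, by rw [htyp u hu0, hu2], hgood0 u hu0⟩
    -- the genuine node with spot `l`
    have hch : ∀ m : {m // m ∈ F0}, ∃ u : Wd K, u.1.tag = m.1 ∧ typ Φ P u = m.1.t :=
      fun m => hP.gen m.1 m.2
    choose ν hν1 hν2 using hch
    let L : List {m // m ∈ F0} := F0.attach.toList.filter fun m => l.le m.1
    let f : Fin L.length → Nd := fun i => (ν (L.get i)).1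
    have hL : ∀ m : {m // m ∈ F0}, m ∈ L ↔ l.le m.1 := by
      intro m
      simp [L]
    have hok : (Nd.mk l L.length f).ok K := by
      refine ⟨hkK, fun i => ⟨(ν (L.get i)).2, ?_⟩⟩
      change l.le (ν (L.get i)).1.tag
      rw [hν1]
      exact (hL _).1 (List.get_mem _ _)
    let g : Wd K := ⟨Nd.mk l L.length f, hok⟩
    have hgl : g.1.tag = l := rfl
    have habove : ∀ m : {m // m ∈ F0}, l.le m.1 → lew g (ν m) := by
      intro m hm
      obtain ⟨i, hi⟩ := List.get_of_mem ((hL m).2 hm)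
      refine Or.inr (Or.inr ⟨i, ?_⟩)
      simp only [f, hi]
      exact Nd.up_refl _
    have hcases : ∀ v : Wd K, lew g v → v = g ∨ l.R v.1.tag ∨
        ∃ m : {m // m ∈ F0}, l.le m.1 ∧ lew (ν m) v := by
      intro v hv
      rcases hv with hv | hv | ⟨i, hv⟩
      · exact Or.inl (Subtype.ext hv)
      · exact Or.inr (Or.inl hv)
      · exact Or.inr (Or.inr ⟨L.get i, (hL _).1 (List.get_mem _ _), hv⟩)
    have hRF0 : ∀ m ∈ K, l.R m → m ∈ F0 := by
      intro m hm h
      rcases hFF m (hF.2 l hk m hm (hK.R_le hkK hm h)) with rfl | h1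
      · exact (not_R_self h).elim
      · exact h1
    have hsat := hK.sat l hkK l.t (hK.tE l hkK)
    have hRtyp : ∀ v : Wd K, l.R v.1.tag → l.r ⊆ typ Φ P v := fun v hv =>
      hv.1 _ (hP.ok v (hRF0 _ (tagK v) hv))
    have key : ∀ A : Form, A ∈ Φ → (fo Q A g ↔ A ∈ l.t) := by
      intro A
      induction A with
      | atom n =>
        intro _
        change g ∈ Q n ↔ _
        by_cases hn : atom n ∈ l.t
        · rw [hQ1 n g hn]
          refine ⟨fun _ => hn, fun _ => ⟨hk, fun v hv hv0 => ?_⟩⟩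
          rcases hcases v hv with rfl | h | ⟨m, hm, h⟩
          · exact (hk0 hv0).elim
          · exact (mem_typ.1 (hRtyp v h (hK.tr l hkK hn))).2
          · have h1 : atom n ∈ typ Φ P (ν m) := by
              rw [hν2]
              exact hm.1 hn
            exact hmonoP n _ _ h (mem_typ.1 h1).2
        · rw [hQ2 n hn]
          refine ⟨fun h => (hk0 ?_).elim, fun h => (hn h).elim⟩
          exact hP.sup n g h
      | bot => exact fun _ => ⟨fun h => h.elim, fun h => (hsat.bot h).elim⟩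
      | conj A B ihA ihB =>
        intro hA
        rw [hsat.conj A B hA]
        exact and_congr (ihA (hΦ.conj hA).1) (ihB (hΦ.conj hA).2)
      | disj A B ihA ihB =>
        intro hA
        rw [hsat.disj A B hA]
        exact or_congr (ihA (hΦ.disj hA).1) (ihB (hΦ.disj hA).2)
      | imp X Y ihX ihY =>
        intro hA
        have hX := hΦ.imp hA
        constructor
        · intro h
          by_contra hcon
          by_cases hXt : X ∈ l.t
          · have h1 := (ihY hX.2).1 (h g (lew_refl g) ((ihX hX.1).2 hXt))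
            exact hcon (hsat.imp2 X Y hA h1)
          · obtain ⟨m, hm, hlm, hXm, hYm⟩ := hK.w1 l hkK X Y hA hcon hXt
            have hm0 : m ∈ F0 := by
              rcases hFF m (hF.2 l hk m hm hlm) with rfl | h1
              · exact (hXt hXm).elim
              · exact h1
            have h1 := habove ⟨m, hm0⟩ hlm
            have h2 : typ Φ Q (ν ⟨m, hm0⟩) = m.t := by
              rw [htyp _ (by rw [hν1]; exact hm0), hν2]
            have h3 : X ∈ typ Φ Q (ν ⟨m, hm0⟩) := by
              rw [h2]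
              exact hXm
            have h4 := h _ h1 (mem_typ.1 h3).2
            have h5 : Y ∈ typ Φ Q (ν ⟨m, hm0⟩) := mem_typ.2 ⟨hX.2, h4⟩
            rw [h2] at h5
            exact hYm h5
        · intro h z hz hXz
          rcases hcases z hz with rfl | h1 | ⟨m, hm, h1⟩
          · exact (ihY hX.2).2 (hsat.imp1 X Y h ((ihX hX.1).1 hXz))
          · have hz0 := hRF0 _ (tagK z) h1
            have h2 : imp X Y ∈ typ Φ Q z := by
              rw [htyp z hz0]
              exact hRtyp z h1 (hK.tr l hkK h)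
            exact (mem_typ.1 h2).2 z (lew_refl z) hXz
          · have h2 : imp X Y ∈ typ Φ Q (ν m) := by
              rw [htyp _ (by rw [hν1]; exact m.2), hν2]
              exact hm.1 h
            exact (mem_typ.1 h2).2 z h1 hXz
      | box C _ =>
        intro hA
        change C ∈ l.r ↔ _
        exact (hK.bx l hkK C hA).symm
    have htg : typ Φ Q g = l.t := by
      ext A
      rw [mem_typ]
      constructor
      · rintro ⟨h2, h3⟩
        exact (key A h2).1 h3
      · exact fun h2 => ⟨hsat.sub h2, (key A (hsat.sub h2)).2 h2⟩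
    refine ⟨g, hgl, htg, fun v hv => ?_⟩
    rcases hcases v hv with rfl | h | ⟨m, hm, h⟩
    · rw [htg]
      exact hK.tE l hkK
    · exact hgood0 v (hRF0 _ (tagK v) h) v (lew_refl v)
    · exact hgood0 v (hF0up h (by rw [hν1]; exact m.2)) v (lew_refl v)

/-- Values for all spots of an upward closed set. -/
theorem valid_exists (hΦ : SubCl Φ) (hK : IsSys Φ K) (hix : Set.InjOn ix K) :
    ∀ (n : ℕ) (F : Finset Spot), UpK K F → F.card = n → ∃ P, Valid hK ix F P := by
  classical
  intro n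
  induction n with
  | zero =>
    intro F _ hn
    have h0 : F = ∅ := Finset.card_eq_zero.1 hn
    subst h0
    exact ⟨fun _ => ∅, fun _ => Dfn.empty, fun _ _ h => h.elim, fun u h => by simp at h,
      fun k h => by simp at h⟩
  | succ n ih =>
    intro F hF hn
    have hne : F.Nonempty := Finset.card_pos.1 (by omega)
    -- a minimal element of F
    have hmin : ∃ k ∈ F, ∀ l ∈ F, l.le k → l = k := by
      obtain ⟨k, hk, hkm⟩ := Finset.exists_max_image F (fun k => (F.filter fun l => k.le l).card) hne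
      refine ⟨k, hk, fun l hl hlk => ?_⟩
      by_contra hne
      have h1 : F.filter (fun m => k.le m) ⊂ F.filter (fun m => l.le m) := by
        refine Finset.ssubset_iff_of_subset ?_ |>.2 ⟨l, Finset.mem_filter.2 ⟨hl, Spot.le_refl l⟩, ?_⟩
        · intro m hm
          exact Finset.mem_filter.2 ⟨(Finset.mem_filter.1 hm).1,
            Spot.le_trans hlk (Finset.mem_filter.1 hm).2⟩
        · intro h
          exact hne (Spot.le_antisymm hlk (Finset.mem_filter.1 h).2)
      have h2 := hkm l hl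
      have h3 := Finset.card_lt_card h1
      omega
    obtain ⟨k, hk, hkm⟩ := hmin
    have hF0 : UpK K (F.erase k) := by
      refine ⟨(Finset.erase_subset _ _).trans hF.1, fun l hl m hm hlm => ?_⟩
      refine Finset.mem_erase.2 ⟨fun h => ?_, hF.2 l (Finset.mem_of_mem_erase hl) m hm hlm⟩
      subst h
      exact (Finset.mem_erase.1 hl).1 (hkm l (Finset.mem_of_mem_erase hl) hlm)
    obtain ⟨P, hP⟩ := ih (F.erase k) hF0 (by rw [Finset.card_erase_of_mem hk]; omega)
    obtain ⟨Q, hQ⟩ := init hΦ hix hF0 hF hk (Finset.notMem_erase k F)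
      (fun l hl => by
        by_cases h : l = k
        · exact Or.inl h
        · exact Or.inr (Finset.mem_erase.2 ⟨h, hl⟩)) (Finset.erase_subset _ _) hP
    exact passes hΦ hix hF hk hkm _ hQ le_rfl

/-- Truth lemma for the substitution. -/
theorem truth (hΦ : SubCl Φ) {P : ℕ → Set (Wd K)} (hP : Valid hK ix K P) {s : ℕ → Form}
    (hs : ∀ n, ∀ u : Wd K, (tm hK ix).frc (s n) u ↔ u ∈ P n) :
    ∀ A : Form, A ∈ Φ → ∀ u : Wd K, (tm hK ix).frc (sb s A) u ↔ fo P A u := by
  intro A
  induction A with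
  | atom n => exact fun _ u => hs n u
  | bot => exact fun _ u => Iff.rfl
  | conj A B ihA ihB => exact fun h u => and_congr (ihA (hΦ.conj h).1 u) (ihB (hΦ.conj h).2 u)
  | disj A B ihA ihB => exact fun h u => or_congr (ihA (hΦ.disj h).1 u) (ihB (hΦ.disj h).2 u)
  | imp A B ihA ihB =>
    intro h u
    have h1 := hΦ.imp h
    constructor
    · exact fun h2 v hv h3 => (ihB h1.2 v).1 (h2 v hv ((ihA h1.1 v).2 h3))
    · exact fun h2 v hv h3 => (ihB h1.2 v).2 (h2 v hv ((ihA h1.1 v).1 h3))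
  | box C ih =>
    intro h u
    have hC := hΦ.box h
    change (∀ v : Wd K, u.1.tag.R v.1.tag → (tm hK ix).frc (sb s C) v) ↔ C ∈ u.1.tag.r
    constructor
    · intro h1
      by_contra hcon
      obtain ⟨l, hl, hul, hCl⟩ := hK.w2 _ (tagK u) C hC hcon
      obtain ⟨g, hg1, hg2⟩ := hP.gen l hl
      have h2 : u.1.tag.R g.1.tag := by
        rw [hg1]
        exact hul
      have h3 : C ∈ typ Φ P g := mem_typ.2 ⟨hC, (ih hC g).1 (h1 g h2)⟩
      rw [hg2] at h3
      exact hCl h3
    · intro h1 v hv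
      have h2 : C ∈ typ Φ P v := hv.1 _ (hP.ok v (tagK v)) h1
      exact (ih hC v).2 (mem_typ.1 h2).2

/-- A finite refutation structure gives a substitution and a closed model. -/
theorem sys_refutes (hΦ : SubCl Φ) (hK : IsSys Φ K) {k : Spot} (hk : k ∈ K) {A : Form}
    (hA : A ∈ Φ) (hAk : A ∉ k.t) :
    ∃ s : ℕ → Form, (∀ n, bf (s n)) ∧ ∃ M : Mdl, M.Closed ∧ ∃ u : M.W, ¬ M.frc (sb s A) u := by
  obtain ⟨ix, hix⟩ := exists_ix K
  obtain ⟨P, hP⟩ := valid_exists hΦ hK hix K.card K ⟨Finset.Subset.refl _, fun _ _ _ h _ => h⟩ rfl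
  have hch := hP.dfn
  choose s hs1 hs2 using hch
  refine ⟨s, hs1, tm hK ix, tm_closed hK hix, ?_⟩
  obtain ⟨g, hg1, hg2⟩ := hP.gen k hk
  refine ⟨g, fun h => hAk ?_⟩
  have h1 := (truth hΦ hP hs2 A hA g).1 h
  rw [← hg2]
  exact mem_typ.2 ⟨hA, h1⟩

end HAs
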