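import Pool.Agent.Lib.MP_61e577_lc.Tree

/-! Definable sets of nodes, evaluation with prescribed boxes, good nodes. -/

namespace HAs

open Form Set

variable {Φ : Finset Form} {K : Finset Spot}

/-- Nodes of the tree model. -/
abbrev Wd (K : Finset Spot) : Type := {u : Nd // u.ok K}

/-- The order. -/
def lew (u v : Wd K) : Prop := v.1.up u.1

theorem lew_refl (u : Wd K) : lew u u := Nd.up_refl _

theorem lew_trans (hK : IsSys Φ K) {u v w : Wd K} (h1 : lew u v) (h2 : lew v w) : lew u w :=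
  (tm hK fun _ => 0).trans h1 h2

theorem lew_tag (hK : IsSys Φ K) {u v : Wd K} (h : lew u v) : u.1.tag.le v.1.tag :=
  Nd.up_tag hK v.2 u.2 h

theorem tagK (u : Wd K) : u.1.tag ∈ K := Nd.ok_tag u.2

/-- Definable by a box-free formula. -/
def Dfn (hK : IsSys Φ K) (ix : Spot → ℕ) (X : Set (Wd K)) : Prop :=
  ∃ F, bf F ∧ ∀ u : Wd K, (tm hK ix).frc F u ↔ u ∈ X

variable {hK : IsSys Φ K} {ix : Spot → ℕ}

theorem Dfn.mono {X : Set (Wd K)} (h : Dfn hK ix X) {u v : Wd K} (h1 : lew u v) (h2 : u ∈ X) :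
    v ∈ X := by
  obtain ⟨F, -, hF⟩ := h
  exact (hF v).1 (Mdl.frc_mono (M := tm hK ix) h1 ((hF u).2 h2))

theorem Dfn.empty : Dfn hK ix ∅ := ⟨bot, trivial, fun _ => Iff.rfl⟩

theorem Dfn.univ : Dfn hK ix univ :=
  ⟨imp bot bot, ⟨trivial, trivial⟩, fun _ => ⟨fun _ => trivial, fun _ _ _ h => h⟩⟩

theorem Dfn.inter {X Y : Set (Wd K)} (hX : Dfn hK ix X) (hY : Dfn hK ix Y) :
    Dfn hK ix {u | u ∈ X ∧ u ∈ Y} := by
  obtain ⟨F, hF, hF'⟩ := hX
  obtain ⟨G, hG, hG'⟩ := hY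
  exact ⟨conj F G, ⟨hF, hG⟩, fun u => and_congr (hF' u) (hG' u)⟩

theorem Dfn.union {X Y : Set (Wd K)} (hX : Dfn hK ix X) (hY : Dfn hK ix Y) :
    Dfn hK ix {u | u ∈ X ∨ u ∈ Y} := by
  obtain ⟨F, hF, hF'⟩ := hX
  obtain ⟨G, hG, hG'⟩ := hY
  exact ⟨disj F G, ⟨hF, hG⟩, fun u => or_congr (hF' u) (hG' u)⟩

theorem Dfn.himp {X Y : Set (Wd K)} (hX : Dfn hK ix X) (hY : Dfn hK ix Y) :
    Dfn hK ix {u | ∀ v, lew u v → v ∈ X → v ∈ Y} := by
  obtain ⟨F, hF, hF'⟩ := hX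
  obtain ⟨G, hG, hG'⟩ := hY
  refine ⟨imp F G, ⟨hF, hG⟩, fun u => ?_⟩
  constructor
  · exact fun h v hv h1 => (hG' v).1 (h v hv ((hF' v).2 h1))
  · exact fun h v hv h1 => (hG' v).2 (h v hv ((hF' v).1 h1))

theorem Dfn.all {ι : Type} [DecidableEq ι] (s : Finset ι) (X : ι → Set (Wd K))
    (h : ∀ i ∈ s, Dfn hK ix (X i)) : Dfn hK ix {u | ∀ i ∈ s, u ∈ X i} := by
  induction s using Finset.induction_on with
  | empty =>
    have h1 : {u : Wd K | ∀ i ∈ (∅ : Finset ι), u ∈ X i} = Set.univ := by ext; simp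
    rw [h1]
    exact Dfn.univ
  | insert a s _ ih =>
    have h1 : {u : Wd K | ∀ i ∈ insert a s, u ∈ X i} =
        {u | u ∈ X a ∧ u ∈ {u | ∀ i ∈ s, u ∈ X i}} := by
      ext
      simp
    rw [h1]
    exact (h a (Finset.mem_insert_self _ _)).inter
      (ih fun i hi => h i (Finset.mem_insert_of_mem hi))

theorem Dfn.ex {ι : Type} [DecidableEq ι] (s : Finset ι) (X : ι → Set (Wd K))
    (h : ∀ i ∈ s, Dfn hK ix (X i)) : Dfn hK ix {u | ∃ i ∈ s, u ∈ X i} := by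
  induction s using Finset.induction_on with
  | empty =>
    have h1 : {u : Wd K | ∃ i ∈ (∅ : Finset ι), u ∈ X i} = ∅ := by ext; simp
    rw [h1]
    exact Dfn.empty
  | insert a s _ ih =>
    have h1 : {u : Wd K | ∃ i ∈ insert a s, u ∈ X i} =
        {u | u ∈ X a ∨ u ∈ {u | ∃ i ∈ s, u ∈ X i}} := by
      ext
      simp
    rw [h1]
    exact (h a (Finset.mem_insert_self _ _)).union
      (ih fun i hi => h i (Finset.mem_insert_of_mem hi))

theorem Dfn.ge (hix : Set.InjOn ix K) {k : Spot} (hk : k ∈ K) :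
    Dfn hK ix {u | k.le u.1.tag} := by
  refine ⟨atom (ix k), trivial, fun u => ?_⟩
  constructor
  · rintro ⟨l, hl, h1, h2⟩
    have h3 : l = k := hix hl hk h1
    rw [h3] at h2
    exact h2
  · exact fun h => ⟨k, hk, rfl, h⟩

open Classical in
theorem Dfn.tag (hix : Set.InjOn ix K) {p : Spot → Prop}
    (hp : ∀ k ∈ K, ∀ l ∈ K, k.le l → p k → p l) : Dfn hK ix {u | p u.1.tag} := by
  have h1 : {u : Wd K | p u.1.tag} = {u | ∃ k ∈ K.filter p, u ∈ {u : Wd K | k.le u.1.tag}} := by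
    ext u
    simp only [Finset.mem_filter, mem_ofPred_eq]
    constructor
    · exact fun h => ⟨u.1.tag, ⟨tagK u, h⟩, Spot.le_refl _⟩
    · rintro ⟨k, ⟨hk, h2⟩, h3⟩
      exact hp k hk _ (tagK u) h3 h2
  rw [h1]
  exact Dfn.ex _ _ fun k hk => Dfn.ge hix (Finset.mem_filter.1 hk).1

/-- Evaluation with values `P` for the atoms and boxes read off from the spots. -/
def fo (P : ℕ → Set (Wd K)) : Form → Wd K → Prop
  | atom n, u => u ∈ P n
  | bot, _ => False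
  | conj A B, u => fo P A u ∧ fo P B u
  | disj A B, u => fo P A u ∨ fo P B u
  | imp A B, u => ∀ v, lew u v → fo P A v → fo P B v
  | box A, u => A ∈ u.1.tag.r

theorem fo_mono (hK : IsSys Φ K) {P : ℕ → Set (Wd K)}
    (hP : ∀ n u v, lew u v → u ∈ P n → v ∈ P n) :
    ∀ {A : Form} {u v : Wd K}, lew u v → fo P A u → fo P A v
  | atom _, _, _, h, h1 => hP _ _ _ h h1
  | bot, _, _, _, h1 => h1
  | conj _ _, _, _, h, h1 => ⟨fo_mono hK hP h h1.1, fo_mono hK hP h h1.2⟩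
  | disj _ _, _, _, h, h1 => h1.elim (fun h1 => Or.inl (fo_mono hK hP h h1))
      (fun h1 => Or.inr (fo_mono hK hP h h1))
  | imp _ _, _, _, h, h1 => fun w hw h2 => h1 w (lew_trans hK h hw) h2
  | box _, _, _, h, h1 => (lew_tag hK h).2.2 h1

theorem Dfn.fo (hix : Set.InjOn ix K) {P : ℕ → Set (Wd K)} (hP : ∀ n, Dfn hK ix (P n)) :
    ∀ A : Form, Dfn hK ix {u | HAs.fo P A u}
  | atom n => hP n
  | bot => Dfn.empty
  | conj A B => (Dfn.fo hix hP A).inter (Dfn.fo hix hP B)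
  | disj A B => (Dfn.fo hix hP A).union (Dfn.fo hix hP B)
  | imp A B => (Dfn.fo hix hP A).himp (Dfn.fo hix hP B)
  | box A => Dfn.tag hix (p := fun k => A ∈ k.r) fun _ _ _ _ h h1 => h.2.2 h1

open Classical in
/-- The type of a node. -/
noncomputable def typ (Φ : Finset Form) (P : ℕ → Set (Wd K)) (u : Wd K) : Finset Form :=
  Φ.filter (fo P · u)

theorem mem_typ {P : ℕ → Set (Wd K)} {u : Wd K} {A : Form} :
    A ∈ typ Φ P u ↔ A ∈ Φ ∧ fo P A u := by
  classical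
  simp [typ]

/-- Good nodes: all nodes above have an allowed type. -/
def good (Φ : Finset Form) (P : ℕ → Set (Wd K)) (u : Wd K) : Prop :=
  ∀ v, lew u v → typ Φ P v ∈ v.1.tag.E

theorem good_mono (hK : IsSys Φ K) {P : ℕ → Set (Wd K)} {u v : Wd K} (h : lew u v)
    (h1 : good Φ P u) : good Φ P v := fun w hw => h1 w (lew_trans hK h hw)

open Classical in
theorem Dfn.good (hix : Set.InjOn ix K) {P : ℕ → Set (Wd K)} (hP : ∀ n, Dfn hK ix (P n)) :
    Dfn hK ix {u | HAs.good Φ P u} := by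
  have h1 : {u : Wd K | HAs.good Φ P u} = {u | ∀ k ∈ K, u ∈ {u : Wd K |
      ∀ t ∈ Φ.powerset.filter (· ∉ k.E), u ∈ {u : Wd K | ∀ v, lew u v →
        v ∈ {v : Wd K | v ∈ {v : Wd K | k.le v.1.tag} ∧ v ∈ {v : Wd K | ∀ A ∈ t, v ∈ {v | HAs.fo P A v}}} →
          v ∈ {v : Wd K | ∃ A ∈ Φ \ t, v ∈ {v | HAs.fo P A v}}}}} := by
    ext u
    simp only [mem_ofPred_eq, Finset.mem_filter, Finset.mem_powerset, Finset.mem_sdiff]
    constructor
    · rintro h k hk t ⟨ht, htE⟩ v hv ⟨h2, h3⟩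
      by_contra hcon
      push Not at hcon
      apply htE
      have h4 : typ Φ P v = t := by
        ext A
        rw [mem_typ]
        constructor
        · rintro ⟨h5, h6⟩
          by_contra h7
          exact hcon A ⟨h5, h7⟩ h6
        · exact fun h5 => ⟨ht h5, h3 A h5⟩
      rw [← h4]
      exact h2.2.1 (h v hv)
    · intro h v hv
      by_contra hcon
      obtain ⟨A, ⟨h2, h3⟩, h4⟩ := h v.1.tag (tagK v) (typ Φ P v)
        ⟨fun A hA => (mem_typ.1 hA).1, hcon⟩ v hv ⟨Spot.le_refl _, fun A hA => (mem_typ.1 hA).2⟩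
      exact h3 (mem_typ.2 ⟨h2, h4⟩)
  rw [h1]
  refine Dfn.all _ _ fun k hk => Dfn.all _ _ fun t _ => Dfn.himp ?_ ?_
  · exact (Dfn.ge hix hk).inter (Dfn.all _ _ fun A _ => Dfn.fo hix hP A)
  · exact Dfn.ex _ _ fun A _ => Dfn.fo hix hP A

/-- The types of the good nodes above a node. -/
def ts (Φ : Finset Form) (P : ℕ → Set (Wd K)) (u : Wd K) (t : Finset Form) : Prop :=
  ∃ v, lew u v ∧ good Φ P v ∧ typ Φ P v = t

end HAs
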