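import Pool.Agent.Lib.MP_61e577_lc.Syn

/-! Kripke models closed under tight predecessors, and soundness of the Sigma_1 companion. -/

namespace HAs

open Form Set

/-- Kripke models of iGL + CP. -/
structure Mdl where
  W : Type
  le : W → W → Prop
  R : W → W → Prop
  V : W → ℕ → Prop
  refl : ∀ u, le u u
  trans : ∀ {u v w}, le u v → le v w → le u w
  R_le : ∀ {u v}, R u v → le u v
  le_R : ∀ {u v w}, le u v → R v w → R u w
  R_leR : ∀ {u v w}, R u v → le v w → R u w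
  wf : WellFounded fun u v => R v u
  mono : ∀ {u v n}, le u v → V u n → V v n

/-- Forcing. -/
def Mdl.frc (M : Mdl) : Form → M.W → Prop
  | atom n, u => M.V u n
  | bot, _ => False
  | conj A B, u => M.frc A u ∧ M.frc B u
  | disj A B, u => M.frc A u ∨ M.frc B u
  | imp A B, u => ∀ v, M.le u v → M.frc A v → M.frc B v
  | box A, u => ∀ v, M.R u v → M.frc A v

/-- Upward closed sets closed under tight predecessors with the atoms and the modal
successors of a given element. -/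
structure Mdl.ClosedSet (M : Mdl) (U : Set M.W) : Prop where
  up : ∀ {u v}, u ∈ U → M.le u v → v ∈ U
  tight : ∀ u ∈ U, ∀ vs : List M.W,
    (∀ v ∈ vs, v ∈ U ∧ (∀ n, M.V u n → M.V v n) ∧ ∀ z, M.R v z → M.R u z) →
    ∃ w ∈ U, (∀ v ∈ vs, M.le w v) ∧ (∀ n, M.V w n ↔ M.V u n) ∧ (∀ z, M.R w z ↔ M.R u z) ∧
      ∀ z, M.le w z → z = w ∨ M.R u z ∨ ∃ v ∈ vs, M.le v z

/-- Models in which all sets of modal successors are closed under tight predecessors. -/
def Mdl.Closed (M : Mdl) : Prop := ∀ w, M.ClosedSet {v | M.R w v}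

variable {M : Mdl}

theorem Mdl.frc_mono : ∀ {A : Form} {u v : M.W}, M.le u v → M.frc A u → M.frc A v
  | atom _, _, _, h, h1 => M.mono h h1
  | bot, _, _, _, h1 => h1
  | conj _ _, _, _, h, h1 => ⟨Mdl.frc_mono h h1.1, Mdl.frc_mono h h1.2⟩
  | disj _ _, _, _, h, h1 => h1.elim (fun h1 => Or.inl (Mdl.frc_mono h h1))
      (fun h1 => Or.inr (Mdl.frc_mono h h1))
  | imp _ _, _, _, h, h1 => fun w hw h2 => h1 w (M.trans h hw) h2
  | box _, _, _, h, h1 => fun w hw => h1 w (M.le_R h hw)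

theorem Mdl.R_trans {u v w : M.W} (h1 : M.R u v) (h2 : M.R v w) : M.R u w := M.le_R (M.R_le h1) h2

theorem Mdl.frc_ax {A : Form} (h : IPax A) (u : M.W) : M.frc A u := by
  cases h with
  | k A B => exact fun v _ h1 w hw _ => Mdl.frc_mono hw h1
  | s A B C =>
    intro v _ h1 w hw h2 z hz h3
    exact h1 z (M.trans hw hz) h3 z (M.refl z) (h2 z hz h3)
  | andl A B => exact fun v _ h1 => h1.1
  | andr A B => exact fun v _ h1 => h1.2
  | andi A B => exact fun v _ h1 w hw h2 => ⟨Mdl.frc_mono hw h1, h2⟩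
  | orl A B => exact fun v _ h1 => Or.inl h1
  | orr A B => exact fun v _ h1 => Or.inr h1
  | ore A B C =>
    intro v _ h1 w hw h2 z hz h3
    exact h3.elim (fun h3 => h1 z (M.trans hw hz) h3) fun h3 => h2 z hz h3
  | exf A => exact fun v _ h1 => h1.elim

theorem Mdl.frc_k (A B : Form) (u : M.W) :
    M.frc (imp (box (imp A B)) (imp (box A) (box B))) u :=
  fun _ _ h1 _ hw h2 z hz => h1 z (M.le_R hw hz) z (M.refl z) (h2 z hz)

theorem Mdl.frc_four (A : Form) (u : M.W) : M.frc (imp (box A) (box (box A))) u :=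
  fun _ _ h1 _ hw z hz => h1 z (Mdl.R_trans hw hz)

theorem Mdl.frc_ik4 {A : Form} (h : IK4 A) : ∀ u : M.W, M.frc A u := by
  induction h with
  | ax h => exact fun u => Mdl.frc_ax h u
  | k A B => exact fun u => Mdl.frc_k A B u
  | four A => exact fun u => Mdl.frc_four A u
  | nec _ ih => exact fun u v _ => ih v
  | mp _ _ ih1 ih2 => exact fun u => ih1 u u (M.refl u) (ih2 u)

theorem Mdl.frc_lob (A : Form) (u : M.W) : M.frc (imp (box (imp (box A) A)) (box A)) u := by
  intro v _ h1 w hw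
  induction w using M.wf.induction with
  | _ w ih =>
    exact h1 w hw w (M.refl w) fun z hz => ih z hz (Mdl.R_trans hw hz)

theorem Mdl.frc_dj {L : List Form} {u : M.W} : M.frc (dj L) u ↔ ∃ A ∈ L, M.frc A u := by
  induction L with
  | nil => simp [dj, Mdl.frc]
  | cons A L ih => simp [dj, Mdl.frc, ih]

theorem Mdl.frc_cj {L : List Form} {u : M.W} : M.frc (cj L) u ↔ ∀ A ∈ L, M.frc A u := by
  induction L with
  | nil => simp [cj, Mdl.frc]
  | cons A L ih => simp [cj, Mdl.frc, ih]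

/-- Witnesses for a failing bracket. -/
theorem Mdl.wit {B : Form} {u : M.W} : ∀ {E : Form}, ¬ M.frc (brs B E) u →
    ∃ vs : List M.W, (∀ v ∈ vs, M.le u v ∧ M.frc B v) ∧
      ∀ w : M.W, (∀ v ∈ vs, M.le w v) → (∀ n, M.V w n ↔ M.V u n) → (∀ z, M.R w z ↔ M.R u z) →
        ¬ M.frc E w
  | atom n, h => ⟨[], by simp, fun w _ h1 _ h2 => h ((h1 n).1 h2)⟩
  | bot, _ => ⟨[], by simp, fun w _ _ _ h2 => h2⟩
  | conj E F, h => by
    by_cases h1 : M.frc (brs B E) u
    · have h2 : ¬ M.frc (brs B F) u := fun h3 => h ⟨h1, h3⟩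
      obtain ⟨vs, h3, h4⟩ := Mdl.wit h2
      exact ⟨vs, h3, fun w ha hb hc h => h4 w ha hb hc h.2⟩
    · obtain ⟨vs, h3, h4⟩ := Mdl.wit h1
      exact ⟨vs, h3, fun w ha hb hc h => h4 w ha hb hc h.1⟩
  | disj E F, h => by
    obtain ⟨vs, h3, h4⟩ := Mdl.wit (E := E) fun h1 => h (Or.inl h1)
    obtain ⟨vs', h3', h4'⟩ := Mdl.wit (E := F) fun h1 => h (Or.inr h1)
    refine ⟨vs ++ vs', ?_, ?_⟩
    · intro v hv
      exact (List.mem_append.1 hv).elim (h3 v) (h3' v)
    · intro w ha hb hc h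
      rcases h with h | h
      · exact h4 w (fun v hv => ha v (List.mem_append_left _ hv)) hb hc h
      · exact h4' w (fun v hv => ha v (List.mem_append_right _ hv)) hb hc h
  | imp E F, h => by
    simp only [brs, Mdl.frc] at h
    push Not at h
    obtain ⟨v, hv, hB, v', hv', hE, hF⟩ := h
    refine ⟨[v'], ?_, ?_⟩
    · intro z hz
      rw [List.mem_singleton] at hz
      subst hz
      exact ⟨M.trans hv hv', Mdl.frc_mono hv' hB⟩
    · intro w ha _ _ h
      exact hF (h v' (ha v' (List.mem_singleton_self _)) hE)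
  | box E, h => ⟨[], by simp, fun w _ _ hc h2 => h fun z hz => h2 z ((hc z).2 hz)⟩

theorem Mdl.wits {B : Form} {u : M.W} : ∀ {Z : List Form}, (∀ E ∈ Z, ¬ M.frc (brs B E) u) →
    ∃ vs : List M.W, (∀ v ∈ vs, M.le u v ∧ M.frc B v) ∧
      ∀ w : M.W, (∀ v ∈ vs, M.le w v) → (∀ n, M.V w n ↔ M.V u n) → (∀ z, M.R w z ↔ M.R u z) →
        ∀ E ∈ Z, ¬ M.frc E w
  | [], _ => ⟨[], by simp, fun w _ _ _ => by simp⟩
  | E :: Z, h => by
    obtain ⟨vs, h3, h4⟩ := Mdl.wit (h E (List.mem_cons_self ..))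
    obtain ⟨vs', h3', h4'⟩ := Mdl.wits fun E hE => h E (List.mem_cons_of_mem _ hE)
    refine ⟨vs ++ vs', ?_, ?_⟩
    · intro v hv
      exact (List.mem_append.1 hv).elim (h3 v) (h3' v)
    · intro w ha hb hc E' hE'
      rcases List.mem_cons.1 hE' with rfl | hE'
      · exact h4 w (fun v hv => ha v (List.mem_append_left _ hv)) hb hc
      · exact h4' w (fun v hv => ha v (List.mem_append_right _ hv)) hb hc E' hE'

theorem Mdl.closed_sub {U : Set M.W} (hU : M.ClosedSet U) (p : M.W → Prop)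
    (h1 : ∀ u v, M.le u v → p u → p v)
    (h2 : ∀ u w, (∀ n, M.V w n ↔ M.V u n) → (∀ z, M.R w z ↔ M.R u z) → p u → p w) :
    M.ClosedSet {u | u ∈ U ∧ p u} where
  up := fun {u v} h h3 => ⟨hU.up h.1 h3, h1 u v h3 h.2⟩
  tight := by
    intro u hu vs hvs
    obtain ⟨w, hw, ha, hb, hc, hd⟩ := hU.tight u hu.1 vs
      fun v hv => ⟨(hvs v hv).1.1, (hvs v hv).2⟩
    exact ⟨w, ⟨hw, h2 u w hb hc hu.2⟩, ha, hb, hc, hd⟩

/-- The relation is sound on closed sets. -/
theorem Mdl.triS (hM : M.Closed) {A B : Form} (h : TriS A B) :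
    ∀ U : Set M.W, M.ClosedSet U → (∀ u ∈ U, M.frc A u) → ∀ u ∈ U, M.frc B u := by
  induction h with
  | a1 h => exact fun U _ h1 u hu => Mdl.frc_ik4 h u u (M.refl u) (h1 u hu)
  | a2 _ _ ih1 ih2 => exact fun U hU h1 => ih2 U hU (ih1 U hU h1)
  | a3 _ _ ih1 ih2 => exact fun U hU h1 u hu => ⟨ih1 U hU h1 u hu, ih2 U hU h1 u hu⟩
  | a4 _ ih => exact fun U _ h1 u hu => ih {v | M.R u v} (hM u) (h1 u hu)
  | @b1 A B C _ _ ih1 ih2 =>
    intro U hU h1 x hx
    by_contra hcon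
    have hUx : M.ClosedSet {y | y ∈ U ∧ (∀ n, M.V x n → M.V y n) ∧ ∀ z, M.R y z → M.R x z} := by
      refine Mdl.closed_sub hU (fun y => (∀ n, M.V x n → M.V y n) ∧ ∀ z, M.R y z → M.R x z) ?_ ?_
      · intro u v huv h
        exact ⟨fun n hn => M.mono huv (h.1 n hn), fun z hz => h.2 z (M.le_R huv hz)⟩
      · intro u w ha hb h
        exact ⟨fun n hn => (ha n).2 (h.1 n hn), fun z hz => h.2 z ((hb z).1 hz)⟩
    have hxx : x ∈ {y | y ∈ U ∧ (∀ n, M.V x n → M.V y n) ∧ ∀ z, M.R y z → M.R x z} :=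
      ⟨hx, fun _ h => h, fun _ h => h⟩
    have h2 : ∃ y ∈ {y | y ∈ U ∧ (∀ n, M.V x n → M.V y n) ∧ ∀ z, M.R y z → M.R x z},
        ¬ M.frc A y := by
      by_contra h3
      push Not at h3
      exact hcon (ih1 _ hUx h3 x hxx)
    have h3 : ∃ y ∈ {y | y ∈ U ∧ (∀ n, M.V x n → M.V y n) ∧ ∀ z, M.R y z → M.R x z},
        ¬ M.frc B y := by
      by_contra h3
      push Not at h3
      exact hcon (ih2 _ hUx h3 x hxx)
    obtain ⟨y, hy, hyA⟩ := h2
    obtain ⟨z, hz, hzB⟩ := h3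
    obtain ⟨w, hw, ha, -, -, -⟩ := hU.tight x hx [y, z] (by
      intro v hv
      rcases List.mem_cons.1 hv with rfl | hv
      · exact hy
      · rw [List.mem_singleton] at hv
        subst hv
        exact hz)
    rcases h1 w hw with h4 | h4
    · exact hyA (Mdl.frc_mono (ha y (by simp)) h4)
    · exact hzB (Mdl.frc_mono (ha z (by simp)) h4)
  | b2 X C =>
    intro U hU h1 u hu
    by_contra hcon
    have h2 : ∀ E ∈ X.map Prod.fst ++ [C], ¬ M.frc (brs (cj (imps X)) E) u := by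
      intro E hE h3
      exact hcon (Mdl.frc_dj.2 ⟨_, List.mem_map_of_mem hE, h3⟩)
    obtain ⟨vs, h3, h4⟩ := Mdl.wits h2
    obtain ⟨w, hw, ha, hb, hc, hd⟩ := hU.tight u hu vs (by
      intro v hv
      have h5 := (h3 v hv).1
      exact ⟨hU.up hu h5, fun n hn => M.mono h5 hn, fun z hz => M.le_R h5 hz⟩)
    have h5 := h4 w ha hb hc
    have hB : M.frc (cj (imps X)) w := by
      refine Mdl.frc_cj.2 fun A hA => ?_
      have hA' := hA
      simp only [imps, List.mem_map] at hA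
      obtain ⟨e, he, rfl⟩ := hA
      intro z hz hz1
      rcases hd z hz with rfl | h6 | ⟨v, hv, h6⟩
      · exact (h5 e.1 (List.mem_append_left _ (List.mem_map_of_mem he)) hz1).elim
      · have h7 := (h1 u hu).2 z h6
        exact Mdl.frc_cj.1 h7 _ hA' z (M.refl z) hz1
      · have h7 := Mdl.frc_mono h6 (h3 v hv).2
        exact Mdl.frc_cj.1 h7 _ hA' z (M.refl z) hz1
    have hC := (h1 w hw).1 w (M.refl w) hB
    exact h5 C (List.mem_append_right _ (List.mem_singleton_self C)) hC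
  | @b3 A B C _ ih =>
    intro U hU h1 u hu v hv hC
    have hUC : M.ClosedSet {y | y ∈ U ∧ M.frc (box C) y} := by
      refine Mdl.closed_sub hU (M.frc (box C)) (fun u v h => Mdl.frc_mono h) ?_
      intro u w _ hb h z hz
      exact h z ((hb z).1 hz)
    exact ih _ hUC (fun y hy => h1 y hy.1 y (M.refl y) hy.2) v ⟨hU.up hu hv, hC⟩
  | @b3a A B n _ ih =>
    intro U hU h1 u hu v hv hC
    have hUC : M.ClosedSet {y | y ∈ U ∧ M.frc (atom n) y} := by
      refine Mdl.closed_sub hU (M.frc (atom n)) (fun u v h => Mdl.frc_mono h) ?_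
      intro u w ha _ h
      exact (ha n).2 h
    exact ih _ hUC (fun y hy => h1 y hy.1 y (M.refl y) hy.2) v ⟨hU.up hu hv, hC⟩

/-- Soundness of the companion logic. -/
theorem Mdl.sound (hM : M.Closed) {A : Form} (h : IHS A) : ∀ u : M.W, M.frc A u := by
  induction h with
  | ax h => exact fun u => Mdl.frc_ax h u
  | k A B => exact fun u => Mdl.frc_k A B u
  | four A => exact fun u => Mdl.frc_four A u
  | lob A => exact fun u => Mdl.frc_lob A u
  | cp A => exact fun u v _ h w hw => Mdl.frc_mono (M.R_le hw) h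
  | tri h => exact fun u v _ h1 => Mdl.triS hM h _ (hM v) h1
  | nec _ ih => exact fun u v _ => ih v
  | mp _ _ ih1 ih2 => exact fun u => ih1 u u (M.refl u) (ih2 u)

end HAs
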