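import Pool.Agent.Lib.MP_61e577_lc.Can

/-! Slash arguments: iH* has the disjunction property, is closed under the relation
of its definition, and under the rule from `box A` to `A`. -/

namespace HAs

open Form Set

/-- A slash relative to `B` over the theory of `box D`; atoms and boxes are decided by
the given sets. -/
def sl (G : Set Form) (a : ℕ → Prop) (b : Form → Prop) : Form → Prop
  | atom n => a n
  | bot => False
  | conj A B => sl G a b A ∧ sl G a b B
  | disj A B => sl G a b A ∨ sl G a b B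
  | imp A B => imp A B ∈ G ∧ (sl G a b A → sl G a b B)
  | box A => b A

theorem sl_mem {G : Set Form} (hG : Cl G) {a : ℕ → Prop} {b : Form → Prop}
    (ha : ∀ n, a n → atom n ∈ G) (hb : ∀ A, b A → box A ∈ G) :
    ∀ {A : Form}, sl G a b A → A ∈ G
  | atom n, h => ha n h
  | bot, h => h.elim
  | conj _ _, h => hG.and_iff.2 ⟨sl_mem hG ha hb h.1, sl_mem hG ha hb h.2⟩
  | disj _ _, h => h.elim (fun h => hG.orl (sl_mem hG ha hb h)) fun h => hG.orr (sl_mem hG ha hb h)
  | imp _ _, h => h.1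
  | box A, h => hb A h

theorem sl_ax {G : Set Form} (hG : Cl G) {a : ℕ → Prop} {b : Form → Prop}
    (ha : ∀ n, a n → atom n ∈ G) (hb : ∀ A, b A → box A ∈ G) {A : Form} (h : IPax A) :
    sl G a b A := by
  have hm : ∀ {A : Form}, sl G a b A → A ∈ G := fun h => sl_mem hG ha hb h
  have h0 : A ∈ G := hG.ax _ h
  cases h with
  | k A B => exact ⟨h0, fun h1 => ⟨hG.wk (hm h1), fun _ => h1⟩⟩
  | s A B C =>
    refine ⟨h0, fun h1 => ⟨hG.mp h0 h1.1, fun h2 => ⟨?_, fun h3 => ?_⟩⟩⟩
    · exact hG.mp (hG.mp h0 h1.1) h2.1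
    · exact (h1.2 h3).2 (h2.2 h3)
  | andl A B => exact ⟨h0, fun h1 => h1.1⟩
  | andr A B => exact ⟨h0, fun h1 => h1.2⟩
  | andi A B => exact ⟨h0, fun h1 => ⟨hG.mp h0 (hm h1), fun h2 => ⟨h1, h2⟩⟩⟩
  | orl A B => exact ⟨h0, fun h1 => Or.inl h1⟩
  | orr A B => exact ⟨h0, fun h1 => Or.inr h1⟩
  | ore A B C =>
    refine ⟨h0, fun h1 => ⟨hG.mp h0 h1.1, fun h2 => ⟨hG.mp (hG.mp h0 h1.1) h2.1, fun h3 => ?_⟩⟩⟩
    exact h3.elim h1.2 h2.2
  | exf A => exact ⟨h0, fun h1 => h1.elim⟩

/-- Soundness of the slash for a set `b` of formulas with the closure properties of a box. -/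
theorem sl_ih {G : Set Form} (hG : Th G) {a : ℕ → Prop} {b : Form → Prop}
    (ha : ∀ n, a n → atom n ∈ G) (hb : ∀ A, b A → box A ∈ G)
    (hb0 : ∀ A, IH A → b A) (hbk : ∀ A B, b (imp A B) → b A → b B)
    (hb4 : ∀ A, b A → b (box A)) (hbl : ∀ A, b (imp (box A) A) → b A)
    (hbt : ∀ A B, Tri A B → b A → b B) (hbc : ∀ A, sl G a b A → b A) {A : Form} (h : IH A) :
    sl G a b A := by
  have hm : ∀ {A : Form}, sl G a b A → A ∈ G := fun h => sl_mem hG.toCl ha hb h
  induction h with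
  | ax h => exact sl_ax hG.toCl ha hb h
  | k A B =>
    refine ⟨hG.ih _ (.k A B), fun h1 => ⟨hG.mp (hG.ih _ (.k A B)) (hb _ h1), fun h2 => hbk _ _ h1 h2⟩⟩
  | four A => exact ⟨hG.ih _ (.four A), fun h1 => hb4 _ h1⟩
  | lob A => exact ⟨hG.ih _ (.lob A), fun h1 => hbl _ h1⟩
  | cp A => exact ⟨hG.ih _ (.cp A), fun h1 => hbc _ h1⟩
  | tri h => exact ⟨hG.ih _ (.tri h), fun h1 => hbt _ _ h h1⟩
  | nec h _ => exact hb0 _ h
  | mp _ _ ih1 ih2 => exact ih1.2 ih2

theorem ih_dp {D A B : Form} (h : IH (imp (box D) (disj A B))) :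
    IH (imp (box D) A) ∨ IH (imp (box D) B) := by
  let G : Set Form := ext {A | IH A} (box D)
  have hG : Th G := th_ih.ext (box D)
  have h1 : ∀ {A : Form}, IH A → sl G (fun n => atom n ∈ G) (fun A => box A ∈ G) A := by
    intro A hA
    refine sl_ih hG (fun n h => h) (fun A h => h) ?_ ?_ ?_ ?_ ?_ ?_ hA
    · exact fun A hA => hG.ih _ (.nec hA)
    · exact fun A B h1 h2 => hG.box_mp h1 h2
    · exact fun A h1 => hG.mp (hG.ih _ (.four A)) h1
    · exact fun A h1 => hG.mp (hG.ih _ (.lob A)) h1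
    · exact fun A B hT h1 => hG.mp (hG.ih _ (.tri hT)) h1
    · exact fun A h1 => hG.box_of (sl_mem hG.toCl (fun n h => h) (fun A h => h) h1)
  have h2 := (h1 h).2 (th_ih.toCl.self_ext (box D))
  rcases h2 with h2 | h2
  · exact Or.inl (sl_mem hG.toCl (fun n h => h) (fun A h => h) h2)
  · exact Or.inr (sl_mem hG.toCl (fun n h => h) (fun A h => h) h2)

theorem ih_dp0 {A B : Form} (h : IH (disj A B)) : IH A ∨ IH B := by
  have ht : IH (box (imp bot bot)) := .nec (cl_ih.refl _)
  rcases ih_dp (D := imp bot bot) (cl_ih.wk h) with h1 | h1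
  · exact Or.inl (.mp h1 ht)
  · exact Or.inr (.mp h1 ht)

theorem ih_dj : ∀ {L : List Form} {D : Form}, ¬ IH (imp (box D) bot) → IH (imp (box D) (dj L)) →
    ∃ A ∈ L, IH (imp (box D) A)
  | [], _, h0, h => (h0 h).elim
  | A :: L, D, h0, h => by
    rcases ih_dp h with h1 | h1
    · exact ⟨A, List.mem_cons_self .., h1⟩
    · obtain ⟨B, hB, h2⟩ := ih_dj h0 h1
      exact ⟨B, List.mem_cons_of_mem _ hB, h2⟩

theorem sl_cj {G : Set Form} (hG : Cl G) {a : ℕ → Prop} {b : Form → Prop} {L : List Form}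
    (h : ∀ A ∈ L, sl G a b A) : sl G a b (cj L) := by
  induction L with
  | nil => exact ⟨hG.refl _, fun h => h⟩
  | cons A L ih =>
    exact ⟨h A (List.mem_cons_self ..), ih fun B hB => h B (List.mem_cons_of_mem _ hB)⟩

theorem ih_b2 {D C : Form} {X : List (Form × Form)}
    (h1 : IH (imp (box D) (imp (cj (imps X)) C)))
    (h2 : IH (imp (box D) (box (cj (imps X))))) :
    ∃ E ∈ X.map Prod.fst ++ [C], IH (imp (box D) (br (cj (imps X)) E)) := by
  let B := cj (imps X)
  let G0 : Set Form := ext {A | IH A} (box D)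
  let G : Set Form := ext G0 B
  have hG0 : Th G0 := th_ih.ext (box D)
  have hG : Th G := hG0.ext B
  have hsub : ∀ A, A ∈ G0 → A ∈ G := fun A h => hG0.toCl.sub_ext h
  let a : ℕ → Prop := fun n => atom n ∈ G
  let b : Form → Prop := fun A => box A ∈ G0
  have hm : ∀ {A : Form}, sl G a b A → A ∈ G := fun h =>
    sl_mem hG.toCl (fun n h => h) (fun A h => hsub _ h) h
  have hs : ∀ {A : Form}, IH A → sl G a b A := by
    intro A hA
    refine sl_ih hG (fun n h => h) (fun A h => hsub _ h) ?_ ?_ ?_ ?_ ?_ ?_ hA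
    · exact fun A hA => hG0.ih _ (.nec hA)
    · exact fun A B h1 h2 => hG0.box_mp h1 h2
    · exact fun A h1 => hG0.mp (hG0.ih _ (.four A)) h1
    · exact fun A h1 => hG0.mp (hG0.ih _ (.lob A)) h1
    · exact fun A B hT h1 => hG0.mp (hG0.ih _ (.tri hT)) h1
    · intro A h3
      have h4 : imp B A ∈ G0 := hm h3
      exact hG0.box_mp (hG0.box_of h4) h2
  have hbr : ∀ {E : Form}, sl G a b E → br B E ∈ G0 := by
    intro E
    induction E with
    | atom n => exact fun h => h
    | bot => exact fun h => h.elim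
    | conj E F ih1 ih2 => exact fun h => hG0.toCl.and_iff.2 ⟨ih1 h.1, ih2 h.2⟩
    | disj E F ih1 ih2 =>
      exact fun h => h.elim (fun h => hG0.toCl.orl (ih1 h)) (fun h => hG0.toCl.orr (ih2 h))
    | imp E F _ _ => exact fun h => h.1
    | box E _ => exact fun h => h
  by_contra hcon
  push Not at hcon
  have hno : ∀ E ∈ X.map Prod.fst ++ [C], ¬ sl G a b E := fun E hE h => hcon E hE (hbr h)
  have hB : sl G a b B := by
    refine sl_cj hG.toCl fun A hA => ?_
    have hA' := hA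
    simp only [imps, List.mem_map] at hA
    obtain ⟨e, he, rfl⟩ := hA
    refine ⟨?_, fun h => ?_⟩
    · exact hG.toCl.cj_iff.1 (hG0.toCl.self_ext B) _ hA'
    · exact (hno e.1 (List.mem_append_left _ (List.mem_map_of_mem he)) h).elim
  have hbc : sl G a b (imp B C) := by
    have h3 := (hs h1).2
    exact h3 (th_ih.toCl.self_ext (box D))
  exact hno C (List.mem_append_right _ (List.mem_singleton_self C)) (hbc.2 hB)

/-- Closure of iH* under the relation, with boxed assumptions. -/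
theorem ih_tri {A B : Form} (h : Tri A B) : ∀ D : Form, IH (imp (box D) A) → IH (imp (box D) B) := by
  induction h with
  | a1 h => exact fun D h1 => cl_ih.trans h1 h.toIH
  | a2 _ _ ih1 ih2 => exact fun D h1 => ih2 D (ih1 D h1)
  | a3 _ _ ih1 ih2 =>
    exact fun D h1 => (cl_ih.ext (box D)).and_iff.2 ⟨ih1 D h1, ih2 D h1⟩
  | a4 h _ => exact fun D h1 => cl_ih.trans h1 (.tri h)
  | b1 _ _ ih1 ih2 => exact fun D h1 => (ih_dp h1).elim (ih1 D) (ih2 D)
  | b2 X C =>
    intro D h1
    have h2 := (cl_ih.ext (box D)).and_iff.1 h1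
    obtain ⟨E, hE, h3⟩ := ih_b2 h2.1 h2.2
    exact (cl_ih.ext (box D)).dj_of (List.mem_map_of_mem hE) h3
  | @b3 A B C _ ih =>
    intro D h1
    have hDC : IH (imp (box (conj D C)) (box D)) := (ik4_box_mono (.ax (.andl D C))).toIH
    have hDC' : IH (imp (box (conj D C)) (box C)) := (ik4_box_mono (.ax (.andr D C))).toIH
    have h2 : IH (imp (box (conj D C)) A) := by
      have h3 : IH (imp (box (conj D C)) (imp (box C) A)) := cl_ih.trans hDC h1
      exact (cl_ih.ext (box (conj D C))).mp h3 hDC'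
    have h3 := ih (conj D C) h2
    have h4 := (cl_ih.ext (box D)).ext (box C)
    have h5 : conj (box D) (box C) ∈ ext (ext {A | IH A} (box D)) (box C) :=
      h4.and_iff.2 ⟨(cl_ih.ext (box D)).sub_ext (cl_ih.self_ext _), (cl_ih.ext (box D)).self_ext _⟩
    have h6 : imp (conj (box D) (box C)) B ∈ ext (ext {A | IH A} (box D)) (box C) :=
      (cl_ih.ext (box D)).sub_ext (cl_ih.sub_ext (cl_ih.trans (ik4_box_and D C).toIH h3))
    exact h4.mp h6 h5

theorem tc_ih : TC {A | IH A} := by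
  intro A B h hA
  have ht : IH (box (imp bot bot)) := .nec (cl_ih.refl _)
  exact .mp (ih_tri h (imp bot bot) (cl_ih.wk hA)) ht

/-- iH* is closed under the rule from `box A` to `A`. -/
theorem ih_denec {A : Form} (h : IH (box A)) : IH A := by
  have h1 : sl {A | IH A} (fun n => IH (atom n)) IH (box A) := by
    refine sl_ih th_ih (fun n h => h) (fun A h => .nec h) (fun A h => h)
      (fun A B h1 h2 => .mp h1 h2) (fun A h => .nec h) ?_ (fun A B h1 h2 => tc_ih h1 h2) ?_ h
    · intro A h1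
      exact .mp h1 (.mp (.lob A) (.nec h1))
    · exact fun A h1 => sl_mem cl_ih (fun n h => h) (fun A h => .nec h) h1
  exact h1

end HAs
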