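import Pool.Agent.Lib.MP_61e577_lc.Slash

/-! Finite refutation structures and the structure realised by prime theories. -/

namespace HAs

open Form Set

/-- A spot: a type, a set of allowed types, and the set of formulas which hold at all
modal successors. -/
structure Spot where
  t : Finset Form
  E : Finset (Finset Form)
  r : Finset Form
  deriving DecidableEq

/-- The intuitionistic order on spots. -/
def Spot.le (k l : Spot) : Prop := k.t ⊆ l.t ∧ l.E ⊆ k.E ∧ k.r ⊆ l.r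

/-- The modal relation on spots. -/
def Spot.R (k l : Spot) : Prop := (∀ τ ∈ l.E, k.r ⊆ τ) ∧ l.E ⊆ k.E ∧ k.r ⊂ l.r

/-- Sets of formulas of `Φ` which are saturated. -/
structure Sat (Φ τ : Finset Form) : Prop where
  sub : τ ⊆ Φ
  bot : Form.bot ∉ τ
  conj : ∀ A B, conj A B ∈ Φ → (conj A B ∈ τ ↔ A ∈ τ ∧ B ∈ τ)
  disj : ∀ A B, disj A B ∈ Φ → (disj A B ∈ τ ↔ A ∈ τ ∨ B ∈ τ)
  imp1 : ∀ A B, imp A B ∈ τ → A ∈ τ → B ∈ τ
  imp2 : ∀ A B, imp A B ∈ Φ → B ∈ τ → imp A B ∈ τ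

/-- Closed under subformulas. -/
structure SubCl (Φ : Finset Form) : Prop where
  conj : ∀ {A B}, conj A B ∈ Φ → A ∈ Φ ∧ B ∈ Φ
  disj : ∀ {A B}, disj A B ∈ Φ → A ∈ Φ ∧ B ∈ Φ
  imp : ∀ {A B}, imp A B ∈ Φ → A ∈ Φ ∧ B ∈ Φ
  box : ∀ {A}, box A ∈ Φ → A ∈ Φ

/-- Finite refutation structures. -/
structure IsSys (Φ : Finset Form) (K : Finset Spot) : Prop where
  tE : ∀ k ∈ K, k.t ∈ k.E
  sat : ∀ k ∈ K, ∀ τ ∈ k.E, Sat Φ τ
  rs : ∀ k ∈ K, k.r ⊆ Φ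
  tr : ∀ k ∈ K, k.t ⊆ k.r
  bx : ∀ k ∈ K, ∀ C, box C ∈ Φ → (box C ∈ k.t ↔ C ∈ k.r)
  w1 : ∀ k ∈ K, ∀ X Y, imp X Y ∈ Φ → imp X Y ∉ k.t → X ∉ k.t →
    ∃ l ∈ K, k.le l ∧ X ∈ l.t ∧ Y ∉ l.t
  w2 : ∀ k ∈ K, ∀ C ∈ Φ, C ∉ k.r → ∃ l ∈ K, k.R l ∧ C ∉ l.t
  w3 : ∀ k ∈ K, ∀ T ⊆ k.E, ∃ τ ∈ k.E, (∀ t ∈ T, τ ⊆ t) ∧ τ ⊆ k.r ∧
    (∀ C, box C ∈ Φ → (box C ∈ τ ↔ C ∈ k.r)) ∧
    ∀ X Y, imp X Y ∈ Φ →
      (imp X Y ∈ τ ↔ (∀ t ∈ T, imp X Y ∈ t) ∧ imp X Y ∈ k.r ∧ (X ∈ τ → Y ∈ τ))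

open Classical in
/-- The part of `x` in `Φ`. -/
noncomputable def tp (Φ : Finset Form) (x : Set Form) : Finset Form := Φ.filter (· ∈ x)

theorem mem_tp {Φ : Finset Form} {x : Set Form} {A : Form} : A ∈ tp Φ x ↔ A ∈ Φ ∧ A ∈ x := by
  classical
  simp [tp]

open Classical in
/-- The spot of a pair. -/
noncomputable def spot (Φ : Finset Form) (x P : Set Form) : Spot :=
  ⟨tp Φ x, Φ.powerset.filter (fun t => ∃ v, PT v ∧ P ⊆ v ∧ tp Φ v = t),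
    Φ.filter (fun C => box C ∈ P)⟩

/-- Pairs of a prime theory and a closed prime theory with the same boxes. -/
structure Pr (x P : Set Form) : Prop where
  px : PT x
  pP : PT P
  tc : TC P
  sub : P ⊆ x
  bx : ∀ D, box D ∈ x → box D ∈ P

theorem mem_spotE {Φ : Finset Form} {x P : Set Form} {t : Finset Form} :
    t ∈ (spot Φ x P).E ↔ ∃ v, PT v ∧ P ⊆ v ∧ tp Φ v = t := by
  classical
  simp only [spot, Finset.mem_filter, Finset.mem_powerset]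
  refine ⟨fun h => h.2, fun h => ⟨?_, h⟩⟩
  obtain ⟨v, -, -, rfl⟩ := h
  intro A hA
  exact (mem_tp.1 hA).1

theorem mem_spotr {Φ : Finset Form} {x P : Set Form} {C : Form} :
    C ∈ (spot Φ x P).r ↔ C ∈ Φ ∧ box C ∈ P := by
  classical
  simp [spot]

theorem sat_tp {Φ : Finset Form} (hΦ : SubCl Φ) {v : Set Form} (hv : PT v) : Sat Φ (tp Φ v) where
  sub := fun _ hA => (mem_tp.1 hA).1
  bot := fun h => hv.bot (mem_tp.1 h).2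
  conj := fun A B h => by
    have h1 := hΦ.conj h
    simp only [mem_tp, h, h1.1, h1.2, true_and]
    exact hv.toCl.and_iff
  disj := fun A B h => by
    have h1 := hΦ.disj h
    simp only [mem_tp, h, h1.1, h1.2, true_and]
    exact ⟨fun h2 => hv.or h2, fun h2 => h2.elim hv.toCl.orl hv.toCl.orr⟩
  imp1 := fun A B h h2 =>
    mem_tp.2 ⟨(hΦ.imp (mem_tp.1 h).1).2, hv.mp (mem_tp.1 h).2 (mem_tp.1 h2).2⟩
  imp2 := fun A B h h2 => mem_tp.2 ⟨h, hv.toCl.wk (mem_tp.1 h2).2⟩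

/-- All spots over `Φ`. -/
def allSpots (Φ : Finset Form) : Finset Spot :=
  (Φ.powerset ×ˢ Φ.powerset.powerset ×ˢ Φ.powerset).image fun p => ⟨p.1, p.2.1, p.2.2⟩

theorem mem_allSpots {Φ : Finset Form} {k : Spot} :
    k ∈ allSpots Φ ↔ k.t ⊆ Φ ∧ (∀ τ ∈ k.E, τ ⊆ Φ) ∧ k.r ⊆ Φ := by
  simp only [allSpots, Finset.mem_image, Finset.mem_product, Finset.mem_powerset]
  constructor
  · rintro ⟨p, ⟨h1, h2, h3⟩, rfl⟩
    exact ⟨h1, fun τ hτ => Finset.mem_powerset.1 (h2 hτ), h3⟩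
  · rintro ⟨h1, h2, h3⟩
    exact ⟨(k.t, k.E, k.r), ⟨h1, fun τ hτ => Finset.mem_powerset.2 (h2 τ hτ), h3⟩, rfl⟩

open Classical in
/-- The realised spots. -/
noncomputable def canK (Φ : Finset Form) : Finset Spot :=
  (allSpots Φ).filter fun k => ∃ x P, Pr x P ∧ spot Φ x P = k

theorem mem_canK {Φ : Finset Form} {k : Spot} :
    k ∈ canK Φ ↔ ∃ x P, Pr x P ∧ spot Φ x P = k := by
  classical
  simp only [canK, Finset.mem_filter, mem_allSpots]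
  refine ⟨fun h => h.2, fun h => ⟨?_, h⟩⟩
  obtain ⟨x, P, h, rfl⟩ := h
  refine ⟨fun A hA => (mem_tp.1 hA).1, ?_, fun A hA => (mem_spotr.1 hA).1⟩
  intro τ hτ
  obtain ⟨v, -, -, rfl⟩ := mem_spotE.1 hτ
  exact fun A hA => (mem_tp.1 hA).1

theorem spot_le {Φ : Finset Form} {x P y Q : Set Form} (h1 : x ⊆ y) (h2 : P ⊆ Q) :
    (spot Φ x P).le (spot Φ y Q) := by
  refine ⟨fun A hA => mem_tp.2 ⟨(mem_tp.1 hA).1, h1 (mem_tp.1 hA).2⟩, ?_, ?_⟩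
  · intro t ht
    obtain ⟨v, h3, h4, h5⟩ := mem_spotE.1 ht
    exact mem_spotE.2 ⟨v, h3, h2.trans h4, h5⟩
  · intro C hC
    exact mem_spotr.2 ⟨(mem_spotr.1 hC).1, h2 (mem_spotr.1 hC).2⟩

theorem canK_sys {Φ : Finset Form} (hΦ : SubCl Φ) : IsSys Φ (canK Φ) where
  tE := by
    intro k hk
    obtain ⟨x, P, h, rfl⟩ := mem_canK.1 hk
    exact mem_spotE.2 ⟨x, h.px, h.sub, rfl⟩
  sat := by
    intro k hk τ hτ
    obtain ⟨x, P, h, rfl⟩ := mem_canK.1 hk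
    obtain ⟨v, hv, -, rfl⟩ := mem_spotE.1 hτ
    exact sat_tp hΦ hv
  rs := by
    intro k hk
    obtain ⟨x, P, h, rfl⟩ := mem_canK.1 hk
    exact fun A hA => (mem_spotr.1 hA).1
  tr := by
    intro k hk
    obtain ⟨x, P, h, rfl⟩ := mem_canK.1 hk
    intro A hA
    exact mem_spotr.2 ⟨(mem_tp.1 hA).1, h.bx _ (h.px.box_of (mem_tp.1 hA).2)⟩
  bx := by
    intro k hk C hC
    obtain ⟨x, P, h, rfl⟩ := mem_canK.1 hk
    constructor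
    · intro hA
      exact mem_spotr.2 ⟨hΦ.box hC, h.bx _ (mem_tp.1 hA).2⟩
    · intro hA
      exact mem_tp.2 ⟨hC, h.sub (mem_spotr.1 hA).2⟩
  w1 := by
    intro k hk X Y hXY h1 h2
    obtain ⟨x, P, h, rfl⟩ := mem_canK.1 hk
    have hn : imp X Y ∉ x := fun h3 => h1 (mem_tp.2 ⟨hXY, h3⟩)
    obtain ⟨y, hy1, hy2, hy3⟩ := lind1 (h.px.toTh.ext X) (A := Y) hn
    have hxy : x ⊆ y := fun A hA => hy1 (h.px.toCl.sub_ext hA)
    obtain ⟨Q, hQ1, hQ2, hQ3, hQ4, hQ5⟩ := good_exists h.pP.toTh h.tc hy2 (h.sub.trans hxy)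
    refine ⟨spot Φ y Q, mem_canK.2 ⟨y, Q, ⟨hy2, hQ1, hQ2, hQ4, hQ5⟩, rfl⟩, spot_le hxy hQ3,
      mem_tp.2 ⟨(hΦ.imp hXY).1, hy1 (h.px.toCl.self_ext X)⟩, fun h3 => hy3 (mem_tp.1 h3).2⟩
  w2 := by
    intro k hk C hC h1
    obtain ⟨x, P, h, rfl⟩ := mem_canK.1 hk
    have hn : box C ∉ P := fun h2 => h1 (mem_spotr.2 ⟨hC, h2⟩)
    have hnx : box C ∉ x := fun h2 => hn (h.bx _ h2)
    have hG := h.px.toTh.gx
    have hn2 : C ∉ ext {A | box A ∈ x} (box C) := fun h2 => hnx (h.px.mp (h.px.ih _ (.lob C)) h2)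
    obtain ⟨y, hy1, hy2, hy3⟩ := lind1 (hG.ext (box C)) hn2
    have hGy : {A | box A ∈ x} ⊆ y := fun A hA => hy1 (hG.toCl.sub_ext hA)
    have hCy : box C ∈ y := hy1 (hG.toCl.self_ext _)
    obtain ⟨Q, hQ1, hQ2, hQ3, hQ4, hQ5⟩ := good_exists hG (TC.th h.px.toTh) hy2 hGy
    have hPQ : P ⊆ Q := fun A hA => hQ3 (h.sub (h.pP.box_of hA))
    refine ⟨spot Φ y Q, mem_canK.2 ⟨y, Q, ⟨hy2, hQ1, hQ2, hQ4, hQ5⟩, rfl⟩, ⟨?_, ?_, ?_⟩,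
      fun h3 => hy3 (mem_tp.1 h3).2⟩
    · intro τ hτ A hA
      obtain ⟨v, hv, hQv, rfl⟩ := mem_spotE.1 hτ
      exact mem_tp.2 ⟨(mem_spotr.1 hA).1, hQv (hQ3 (h.sub (mem_spotr.1 hA).2))⟩
    · exact (spot_le (Φ := Φ) (x := x) (y := x) subset_rfl hPQ).2.1
    · refine Finset.ssubset_iff_subset_ne.2 ⟨(spot_le (Φ := Φ) (x := x) (y := x) subset_rfl hPQ).2.2, ?_⟩
      intro h3
      have h4 : C ∈ (spot Φ y Q).r := mem_spotr.2 ⟨hC, hQ5 _ hCy⟩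
      rw [← h3] at h4
      exact h1 h4
  w3 := by
    intro k hk T hT
    obtain ⟨x, P, h, rfl⟩ := mem_canK.1 hk
    let V : Set (Set Form) := {v | PT v ∧ P ⊆ v ∧ tp Φ v ∈ T}
    obtain ⟨u, hu1, hu2, hu3, hu4, hu5⟩ := extension h.pP h.tc V fun v hv => ⟨hv.1, hv.2.1⟩
    have hVT : ∀ t ∈ T, ∃ v ∈ V, tp Φ v = t := by
      intro t ht
      obtain ⟨v, hv1, hv2, hv3⟩ := mem_spotE.1 (hT ht)
      exact ⟨v, ⟨hv1, hv2, hv3 ▸ ht⟩, hv3⟩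
    refine ⟨tp Φ u, mem_spotE.2 ⟨u, hu1, hu2, rfl⟩, ?_, ?_, ?_, ?_⟩
    · intro t ht A hA
      obtain ⟨v, hv, rfl⟩ := hVT t ht
      exact mem_tp.2 ⟨(mem_tp.1 hA).1, hu3 v hv (mem_tp.1 hA).2⟩
    · intro A hA
      exact mem_spotr.2 ⟨(mem_tp.1 hA).1, hu4 _ (hu1.box_of (mem_tp.1 hA).2)⟩
    · intro C hC
      constructor
      · intro hA
        exact mem_spotr.2 ⟨hΦ.box hC, hu4 _ (mem_tp.1 hA).2⟩
      · intro hA
        exact mem_tp.2 ⟨hC, hu2 (mem_spotr.1 hA).2⟩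
    · intro X Y hXY
      constructor
      · intro hA
        refine ⟨?_, mem_spotr.2 ⟨hXY, hu4 _ (hu1.box_of (mem_tp.1 hA).2)⟩, ?_⟩
        · intro t ht
          obtain ⟨v, hv, rfl⟩ := hVT t ht
          exact mem_tp.2 ⟨hXY, hu3 v hv (mem_tp.1 hA).2⟩
        · intro hX
          exact mem_tp.2 ⟨(hΦ.imp hXY).2, hu1.mp (mem_tp.1 hA).2 (mem_tp.1 hX).2⟩
      · rintro ⟨h1, h2, h3⟩
        refine mem_tp.2 ⟨hXY, ?_⟩
        by_cases hX : X ∈ u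
        · have h4 := h3 (mem_tp.2 ⟨(hΦ.imp hXY).1, hX⟩)
          exact hu1.toCl.wk (mem_tp.1 h4).2
        · exact hu5 X Y (fun v hv => (mem_tp.1 (h1 _ hv.2.2)).2) (mem_spotr.1 h2).2 hX

/-- A formula which is not a theorem is refuted at a realised spot. -/
theorem canK_refutes {Φ : Finset Form} {A : Form} (h : ¬ IH A) :
    ∃ k ∈ canK Φ, A ∉ k.t := by
  obtain ⟨x, hx1, hx2, hx3⟩ := lind1 th_ih (A := A) h
  obtain ⟨Q, hQ1, hQ2, hQ3, hQ4, hQ5⟩ := good_exists th_ih tc_ih hx2 hx1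
  exact ⟨spot Φ x Q, mem_canK.2 ⟨x, Q, ⟨hx2, hQ1, hQ2, hQ4, hQ5⟩, rfl⟩,
    fun h3 => hx3 (mem_tp.1 h3).2⟩

end HAs
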