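import Pool.Agent.Lib.MP_61e577_lc.Dfn

/-! The substitution: one stage adds one spot. -/

namespace HAs

open Form Set

variable {Φ : Finset Form} {K : Finset Spot} {hK : IsSys Φ K} {ix : Spot → ℕ}

/-- Upward closed in `K`. -/
def UpK (K F : Finset Spot) : Prop := F ⊆ K ∧ ∀ k ∈ F, ∀ l ∈ K, k.le l → l ∈ F

/-- Values which are right at the nodes with spots in `F`. -/
structure Valid (hK : IsSys Φ K) (ix : Spot → ℕ) (F : Finset Spot) (P : ℕ → Set (Wd K)) :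
    Prop where
  dfn : ∀ n, Dfn hK ix (P n)
  sup : ∀ n u, u ∈ P n → u.1.tag ∈ F
  ok : ∀ u : Wd K, u.1.tag ∈ F → typ Φ P u ∈ u.1.tag.E
  gen : ∀ k ∈ F, ∃ u : Wd K, u.1.tag = k ∧ typ Φ P u = k.t

/-- Intermediate values. -/
structure Mid (hK : IsSys Φ K) (ix : Spot → ℕ) (F : Finset Spot) (k : Spot)
    (P : ℕ → Set (Wd K)) : Prop where
  dfn : ∀ n, Dfn hK ix (P n)
  sup : ∀ n u, u ∈ P n → u.1.tag ∈ F
  ok : ∀ u : Wd K, u.1.tag ∈ F → u.1.tag ≠ k → typ Φ P u ∈ u.1.tag.E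
  gen : ∀ l ∈ F, ∃ u : Wd K, u.1.tag = l ∧ typ Φ P u = l.t ∧ good Φ P u

theorem typ_congr (hK : IsSys Φ K) {P Q : ℕ → Set (Wd K)} {S : Set (Wd K)}
    (hS : ∀ u v, lew u v → u ∈ S → v ∈ S)
    (h : ∀ n, ∀ u ∈ S, u ∈ P n ↔ u ∈ Q n) : ∀ {A : Form} {u : Wd K}, u ∈ S → (fo P A u ↔ fo Q A u)
  | atom n, u, hu => h n u hu
  | bot, _, _ => Iff.rfl
  | conj _ _, _, hu => and_congr (typ_congr hK hS h hu) (typ_congr hK hS h hu)
  | disj _ _, _, hu => or_congr (typ_congr hK hS h hu) (typ_congr hK hS h hu)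
  | imp _ _, u, hu => by
    constructor
    · exact fun h1 v hv h2 => (typ_congr hK hS h (hS _ _ hv hu)).1
        (h1 v hv ((typ_congr hK hS h (hS _ _ hv hu)).2 h2))
    · exact fun h1 v hv h2 => (typ_congr hK hS h (hS _ _ hv hu)).2
        (h1 v hv ((typ_congr hK hS h (hS _ _ hv hu)).1 h2))
  | box _, _, _ => Iff.rfl

theorem typ_eq (hK : IsSys Φ K) {P Q : ℕ → Set (Wd K)} {S : Set (Wd K)}
    (hS : ∀ u v, lew u v → u ∈ S → v ∈ S)
    (h : ∀ n, ∀ u ∈ S, u ∈ P n ↔ u ∈ Q n) {u : Wd K} (hu : u ∈ S) : typ Φ P u = typ Φ Q u := by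
  ext A
  rw [mem_typ, mem_typ, typ_congr hK hS h hu]

theorem good_congr (hK : IsSys Φ K) {P Q : ℕ → Set (Wd K)} {S : Set (Wd K)}
    (hS : ∀ u v, lew u v → u ∈ S → v ∈ S)
    (h : ∀ n, ∀ u ∈ S, u ∈ P n ↔ u ∈ Q n) {u : Wd K} (hu : u ∈ S) (h1 : good Φ P u) :
    good Φ Q u := by
  intro v hv
  rw [← typ_eq hK hS h (hS _ _ hv hu)]
  exact h1 v hv

theorem not_R_self {k : Spot} (h : k.R k) : False := h.2.2.2 (Finset.Subset.refl _)

open Classical in
/-- The sets of types which bound a bad node. -/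
noncomputable def bad (Φ : Finset Form) (F : Finset Spot) (P : ℕ → Set (Wd K)) :
    Finset (Finset (Finset Form)) :=
  Φ.powerset.powerset.filter fun T =>
    ∃ u : Wd K, u.1.tag ∈ F ∧ ¬ good Φ P u ∧ ∀ t, ts Φ P u t → t ∈ T

theorem mem_bad {F : Finset Spot} {P : ℕ → Set (Wd K)} {T : Finset (Finset Form)} :
    T ∈ bad Φ F P ↔ (∀ t ∈ T, t ⊆ Φ) ∧
      ∃ u : Wd K, u.1.tag ∈ F ∧ ¬ good Φ P u ∧ ∀ t, ts Φ P u t → t ∈ T := by
  classical
  simp only [bad, Finset.mem_filter, Finset.mem_powerset]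
  refine and_congr ⟨fun h t ht => Finset.mem_powerset.1 (h ht), fun h t ht =>
    Finset.mem_powerset.2 (h t ht)⟩ Iff.rfl

theorem pass (hΦ : SubCl Φ) (hix : Set.InjOn ix K) {F : Finset Spot} (hF : UpK K F) {k : Spot}
    (hk : k ∈ F) (hmin : ∀ l ∈ F, l.le k → l = k) {P : ℕ → Set (Wd K)} (hP : Mid hK ix F k P)
    (hb : (bad Φ F P).Nonempty) :
    ∃ Q, Mid hK ix F k Q ∧ bad Φ F Q ⊂ bad Φ F P := by
  classical
  obtain ⟨T, hT, hTmin'⟩ := Finset.exists_minimal hb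
  have hTmin : ∀ T' ∈ bad Φ F P, T' ⊆ T → T' = T := fun T' h1 h2 => h2.antisymm (hTmin' h1 h2)
  have hkK : k ∈ K := hF.1 hk
  have hFup : ∀ {u v : Wd K}, lew u v → u.1.tag ∈ F → v.1.tag ∈ F :=
    fun {u v} h h1 => hF.2 _ h1 _ (tagK v) (lew_tag hK h)
  have hmonoP : ∀ n u v, lew u v → u ∈ P n → v ∈ P n := fun n u v h h1 => (hP.dfn n).mono h h1
  -- bad nodes have spot k
  have hbadk : ∀ v : Wd K, v.1.tag ∈ F → ¬ good Φ P v → v.1.tag = k := by
    intro v hv hv1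
    by_contra hne
    apply hv1
    intro w hw
    refine hP.ok w (hFup hw hv) fun hwk => ?_
    have hle : v.1.tag.le w.1.tag := lew_tag hK hw
    rw [hwk] at hle
    exact hne (hmin _ hv hle)
  -- the types of good nodes above a bad node below T are exactly T
  have hfull : ∀ v : Wd K, v.1.tag ∈ F → ¬ good Φ P v → (∀ t, ts Φ P v t → t ∈ T) →
      ∀ t, t ∈ T ↔ ts Φ P v t := by
    intro v hv hv1 hv2
    let T' : Finset (Finset Form) := T.filter fun t => ts Φ P v t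
    have h1 : T' ∈ bad Φ F P := by
      refine mem_bad.2 ⟨fun t ht => (mem_bad.1 hT).1 t (Finset.mem_filter.1 ht).1, v, hv, hv1, ?_⟩
      exact fun t ht => Finset.mem_filter.2 ⟨hv2 t ht, ht⟩
    have h2 := hTmin T' h1 (Finset.filter_subset _ _)
    intro t
    constructor
    · intro ht
      rw [← h2] at ht
      exact (Finset.mem_filter.1 ht).2
    · exact hv2 t
  obtain ⟨-, u0, hu0, hu0b, hu0T⟩ := mem_bad.1 hT
  have hu0k := hbadk u0 hu0 hu0b
  have hTE : T ⊆ k.E := by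
    intro t ht
    obtain ⟨v, hv, hvg, rfl⟩ := (hfull u0 hu0 hu0b hu0T t).1 ht
    have h1 := hvg v (lew_refl v)
    have h2 := (lew_tag hK hv).2.1
    rw [hu0k] at h2
    exact h2 h1
  obtain ⟨τ, hτE, hτT, hτr, hτb, hτi⟩ := hK.w3 k hkK T hTE
  have hτS := hK.sat k hkK τ hτE
  let Q : ℕ → Set (Wd K) := fun n =>
    if atom n ∈ τ then {u | u ∈ {u : Wd K | u.1.tag ∈ F} ∧
      u ∈ {u | ∀ v, lew u v → v ∈ {v | good Φ P v} → v ∈ P n}}
    else {u | u ∈ P n ∧ u ∈ {u | good Φ P u}}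
  have hQ1 : ∀ n u, atom n ∈ τ → (u ∈ Q n ↔ u.1.tag ∈ F ∧ ∀ v, lew u v → good Φ P v → v ∈ P n) := by
    intro n u hn
    simp only [Q, if_pos hn]
    exact Iff.rfl
  have hQ2 : ∀ n u, atom n ∉ τ → (u ∈ Q n ↔ u ∈ P n ∧ good Φ P u) := by
    intro n u hn
    simp only [Q, if_neg hn]
    exact Iff.rfl
  have hQd : ∀ n, Dfn hK ix (Q n) := by
    intro n
    by_cases hn : atom n ∈ τ
    · simp only [Q, if_pos hn]
      refine (Dfn.tag hix (p := fun l => l ∈ F) ?_).inter (Dfn.himp (Dfn.good hix hP.dfn) (hP.dfn n))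
      exact fun l _ m hm h h1 => hF.2 l h1 m hm h
    · simp only [Q, if_neg hn]
      exact (hP.dfn n).inter (Dfn.good hix hP.dfn)
  have hmonoQ : ∀ n u v, lew u v → u ∈ Q n → v ∈ Q n := fun n u v h h1 => (hQd n).mono h h1
  let S : Set (Wd K) := {u | good Φ P u}
  have hS : ∀ u v, lew u v → u ∈ S → v ∈ S := fun u v h h1 => good_mono hK h h1
  have hQP : ∀ n, ∀ u ∈ S, u ∈ Q n ↔ u ∈ P n := by
    intro n u hu
    by_cases hn : atom n ∈ τ
    · rw [hQ1 n u hn]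
      constructor
      · exact fun h => h.2 u (lew_refl u) hu
      · exact fun h => ⟨hP.sup n u h, fun v hv _ => hmonoP n u v hv h⟩
    · rw [hQ2 n u hn]
      exact ⟨fun h => h.1, fun h => ⟨h, hu⟩⟩
  have hPQ : ∀ n, ∀ u ∈ S, u ∈ P n ↔ u ∈ Q n := fun n u hu => (hQP n u hu).symm
  have hgood : ∀ u, good Φ P u → good Φ Q u := fun u hu => good_congr hK hS hPQ hu hu
  have htyp : ∀ u, good Φ P u → typ Φ Q u = typ Φ P u := fun u hu => typ_eq hK hS hQP hu
  have hfo : ∀ {A : Form} u, good Φ P u → (fo Q A u ↔ fo P A u) :=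
    fun {A} u hu => typ_congr hK hS hQP hu
  -- the key claim
  have key : ∀ A : Form, A ∈ Φ → ∀ v : Wd K, v.1.tag ∈ F → ¬ good Φ P v →
      (∀ t, ts Φ P v t → t ∈ T) → (fo Q A v ↔ A ∈ τ) := by
    intro A
    induction A with
    | atom n =>
      intro _ v hv hv1 hv2
      change v ∈ Q n ↔ _
      by_cases hn : atom n ∈ τ
      · rw [hQ1 n v hn]
        refine ⟨fun _ => hn, fun _ => ⟨hv, fun z hz hzg => ?_⟩⟩
        have h1 : typ Φ P z ∈ T := hv2 _ ⟨z, hz, hzg, rfl⟩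
        exact (mem_typ.1 (hτT _ h1 hn)).2
      · rw [hQ2 n v hn]
        exact ⟨fun h => (hv1 h.2).elim, fun h => (hn h).elim⟩
    | bot => exact fun _ v _ _ _ => ⟨fun h => h.elim, fun h => (hτS.bot h).elim⟩
    | conj A B ihA ihB =>
      intro hA v hv hv1 hv2
      rw [hτS.conj A B hA]
      exact and_congr (ihA (hΦ.conj hA).1 v hv hv1 hv2) (ihB (hΦ.conj hA).2 v hv hv1 hv2)
    | disj A B ihA ihB =>
      intro hA v hv hv1 hv2
      rw [hτS.disj A B hA]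
      exact or_congr (ihA (hΦ.disj hA).1 v hv hv1 hv2) (ihB (hΦ.disj hA).2 v hv hv1 hv2)
    | imp X Y ihX ihY =>
      intro hA v hv hv1 hv2
      have hX := hΦ.imp hA
      rw [hτi X Y hA]
      constructor
      · intro h
        have hT1 : ∀ t ∈ T, imp X Y ∈ t := by
          intro t ht
          obtain ⟨z, hz, hzg, rfl⟩ := (hfull v hv hv1 hv2 t).1 ht
          exact mem_typ.2 ⟨hA, (hfo z hzg).1 (fo_mono hK hmonoQ hz h)⟩
        refine ⟨hT1, ?_, fun h1 => ?_⟩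
        · by_contra hcon
          obtain ⟨l, hl, hkl, hl1⟩ := hK.w2 k hkK (imp X Y) hA hcon
          have hlF : l ∈ F := hF.2 k hk l hl (hK.R_le hkK hl hkl)
          obtain ⟨g, hg1, hg2, hg3⟩ := hP.gen l hlF
          have hvg : lew v g := by
            refine Nd.up_R ?_
            rw [hbadk v hv hv1, hg1]
            exact hkl
          have h2 := hT1 _ (hv2 _ ⟨g, hvg, hg3, rfl⟩)
          rw [hg2] at h2
          exact hl1 h2
        · exact (ihY hX.2 v hv hv1 hv2).1 (h v (lew_refl v) ((ihX hX.1 v hv hv1 hv2).2 h1))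
      · rintro ⟨h1, h2, h3⟩ z hz hXz
        by_cases hzg : good Φ P z
        · have h4 := h1 _ (hv2 _ ⟨z, hz, hzg, rfl⟩)
          exact (hfo z hzg).2 ((mem_typ.1 h4).2 z (lew_refl z) ((hfo z hzg).1 hXz))
        · have hzF := hFup hz hv
          have hzT : ∀ t, ts Φ P z t → t ∈ T := by
            rintro t ⟨w, hw, hwg, hwt⟩
            exact hv2 t ⟨w, lew_trans hK hz hw, hwg, hwt⟩
          exact (ihY hX.2 z hzF hzg hzT).2 (h3 ((ihX hX.1 z hzF hzg hzT).1 hXz))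
    | box C _ =>
      intro hA v hv hv1 hv2
      change C ∈ v.1.tag.r ↔ _
      rw [hbadk v hv hv1]
      exact (hτb C hA).symm
  have hfix : ∀ v : Wd K, v.1.tag ∈ F → ¬ good Φ P v → (∀ t, ts Φ P v t → t ∈ T) →
      good Φ Q v := by
    intro v hv hv1 hv2 z hz
    by_cases hzg : good Φ P z
    · rw [htyp z hzg]
      exact hzg z (lew_refl z)
    · have hzF := hFup hz hv
      have hzT : ∀ t, ts Φ P z t → t ∈ T := by
        rintro t ⟨w, hw, hwg, hwt⟩
        exact hv2 t ⟨w, lew_trans hK hz hw, hwg, hwt⟩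
      have h1 : typ Φ Q z = τ := by
        ext A
        rw [mem_typ]
        constructor
        · rintro ⟨h2, h3⟩
          exact (key A h2 z hzF hzg hzT).1 h3
        · exact fun h2 => ⟨hτS.sub h2, (key A (hτS.sub h2) z hzF hzg hzT).2 h2⟩
      rw [h1, hbadk z hzF hzg]
      exact hτE
  have hts : ∀ v t, ts Φ P v t → ts Φ Q v t := by
    rintro v t ⟨w, hw, hwg, hwt⟩
    exact ⟨w, hw, hgood w hwg, by rw [htyp w hwg, hwt]⟩
  refine ⟨Q, ⟨hQd, ?_, ?_, ?_⟩, ?_⟩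
  · intro n u hu
    by_cases hn : atom n ∈ τ
    · exact ((hQ1 n u hn).1 hu).1
    · exact hP.sup n u ((hQ2 n u hn).1 hu).1
  · intro u hu huk
    have hug : good Φ P u := by
      by_contra hcon
      exact huk (hbadk u hu hcon)
    rw [htyp u hug]
    exact hP.ok u hu huk
  · intro l hl
    obtain ⟨u, hu1, hu2, hu3⟩ := hP.gen l hl
    exact ⟨u, hu1, by rw [htyp u hu3, hu2], hgood u hu3⟩
  · refine Finset.ssubset_iff_of_subset ?_ |>.2 ⟨T, hT, ?_⟩
    · intro T1 hT1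
      obtain ⟨h1, u, hu1, hu2, hu3⟩ := mem_bad.1 hT1
      exact mem_bad.2 ⟨h1, u, hu1, fun h => hu2 (hgood u h), fun t ht => hu3 t (hts u t ht)⟩
    · intro hTQ
      obtain ⟨-, u, hu1, hu2, hu3⟩ := mem_bad.1 hTQ
      exact hu2 (hfix u hu1 (fun h => hu2 (hgood u h)) fun t ht => hu3 t (hts u t ht))

theorem passes (hΦ : SubCl Φ) (hix : Set.InjOn ix K) {F : Finset Spot} (hF : UpK K F) {k : Spot}
    (hk : k ∈ F) (hmin : ∀ l ∈ F, l.le k → l = k) :
    ∀ (n : ℕ) {P : ℕ → Set (Wd K)}, Mid hK ix F k P → (bad Φ F P).card ≤ n →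
      ∃ Q, Valid hK ix F Q := by
  intro n
  induction n with
  | zero =>
    intro P hP hn
    have h0 : bad Φ F P = ∅ := Finset.card_eq_zero.1 (Nat.le_zero.1 hn)
    have hall : ∀ u : Wd K, u.1.tag ∈ F → good Φ P u := by
      classical
      intro u hu
      by_contra hcon
      have h1 : Φ.powerset.filter (fun t => ts Φ P u t) ∈ bad Φ F P := by
        refine mem_bad.2 ⟨fun t ht => Finset.mem_powerset.1 (Finset.mem_filter.1 ht).1, u, hu, hcon,
          fun t ht => Finset.mem_filter.2 ⟨Finset.mem_powerset.2 ?_, ht⟩⟩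
        obtain ⟨v, -, -, rfl⟩ := ht
        exact fun A hA => (mem_typ.1 hA).1
      rw [h0] at h1
      simp at h1
    refine ⟨P, hP.dfn, hP.sup, fun u hu => hall u hu u (lew_refl u), fun l hl => ?_⟩
    obtain ⟨u, hu1, hu2, -⟩ := hP.gen l hl
    exact ⟨u, hu1, hu2⟩
  | succ n ih =>
    intro P hP hn
    by_cases hb : (bad Φ F P).Nonempty
    · obtain ⟨Q, hQ, hlt⟩ := pass hΦ hix hF hk hmin hP hb
      exact ih hQ (by have := Finset.card_lt_card hlt; omega)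
    · rw [Finset.not_nonempty_iff_eq_empty] at hb
      exact ih hP (by rw [hb]; simp)

end HAs
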