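import Mathlib

/-! Modal formulas, the systems iK4 and iH*. -/

namespace HAs

/-- Modal propositions. -/
inductive Form : Type
  | atom : ℕ → Form
  | bot : Form
  | conj : Form → Form → Form
  | disj : Form → Form → Form
  | imp : Form → Form → Form
  | box : Form → Form
  deriving DecidableEq

open Form

/-- Finite conjunction; the empty one is `⊥ → ⊥`. -/
def cj : List Form → Form
  | [] => imp bot bot
  | A :: L => conj A (cj L)

/-- Finite disjunction; the empty one is `⊥`. -/
def dj : List Form → Form
  | [] => bot
  | A :: L => disj A (dj L)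

/-- Axioms of intuitionistic propositional logic. -/
inductive IPax : Form → Prop
  | k (A B : Form) : IPax (imp A (imp B A))
  | s (A B C : Form) : IPax (imp (imp A (imp B C)) (imp (imp A B) (imp A C)))
  | andl (A B : Form) : IPax (imp (conj A B) A)
  | andr (A B : Form) : IPax (imp (conj A B) B)
  | andi (A B : Form) : IPax (imp A (imp B (conj A B)))
  | orl (A B : Form) : IPax (imp A (disj A B))
  | orr (A B : Form) : IPax (imp B (disj A B))
  | ore (A B C : Form) : IPax (imp (imp A C) (imp (imp B C) (imp (disj A B) C)))
  | exf (A : Form) : IPax (imp bot A)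

/-- The logic iK4. -/
inductive IK4 : Form → Prop
  | ax {A : Form} : IPax A → IK4 A
  | k (A B : Form) : IK4 (imp (box (imp A B)) (imp (box A) (box B)))
  | four (A : Form) : IK4 (imp (box A) (box (box A)))
  | nec {A : Form} : IK4 A → IK4 (box A)
  | mp {A B : Form} : IK4 (imp A B) → IK4 A → IK4 B

/-- The bracket `{A}(B)`: atoms and implications are guarded by `A`. -/
def br (A : Form) : Form → Form
  | atom n => imp A (atom n)
  | bot => bot
  | conj B C => conj (br A B) (br A C)
  | disj B C => disj (br A B) (br A C)
  | imp B C => imp A (imp B C)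
  | box B => box B

/-- The implications of a list of pairs. -/
def imps (X : List (Form × Form)) : List Form := X.map fun e => imp e.1 e.2

/-- The relation of the problem file. -/
inductive Tri : Form → Form → Prop
  | a1 {A B : Form} : IK4 (imp A B) → Tri A B
  | a2 {A B C : Form} : Tri A B → Tri B C → Tri A C
  | a3 {A B C : Form} : Tri C A → Tri C B → Tri C (conj A B)
  | a4 {A B : Form} : Tri A B → Tri (box A) (box B)
  | b1 {A B C : Form} : Tri A C → Tri B C → Tri (disj A B) C
  | b2 (X : List (Form × Form)) (C : Form) :
      Tri (conj (imp (cj (imps X)) C) (box (cj (imps X))))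
        (dj ((X.map Prod.fst ++ [C]).map (br (cj (imps X)))))
  | b3 {A B : Form} (C : Form) : Tri A B → Tri (imp (box C) A) (imp (box C) B)

/-- The logic iH*. -/
inductive IH : Form → Prop
  | ax {A : Form} : IPax A → IH A
  | k (A B : Form) : IH (imp (box (imp A B)) (imp (box A) (box B)))
  | four (A : Form) : IH (imp (box A) (box (box A)))
  | lob (A : Form) : IH (imp (box (imp (box A) A)) (box A))
  | cp (A : Form) : IH (imp A (box A))
  | tri {A B : Form} : Tri A B → IH (imp (box A) (box B))
  | nec {A : Form} : IH A → IH (box A)
  | mp {A B : Form} : IH (imp A B) → IH A → IH B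

end HAs
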