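import Pool.Agent.Lib.MP_61e577_lc.Spot
import Pool.Agent.Lib.MP_61e577_lc.Mod

/-! The Kripke model of finite trees over a finite refutation structure. -/

namespace HAs

open Form Set

theorem Spot.le_refl (k : Spot) : k.le k :=
  ⟨Finset.Subset.refl _, Finset.Subset.refl _, Finset.Subset.refl _⟩

theorem Spot.le_trans {k l m : Spot} (h1 : k.le l) (h2 : l.le m) : k.le m :=
  ⟨h1.1.trans h2.1, h2.2.1.trans h1.2.1, h1.2.2.trans h2.2.2⟩

theorem Spot.le_antisymm {k l : Spot} (h1 : k.le l) (h2 : l.le k) : k = l := by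
  cases k
  cases l
  simp only [Spot.mk.injEq]
  exact ⟨h1.1.antisymm h2.1, h2.2.1.antisymm h1.2.1, h1.2.2.antisymm h2.2.2⟩

theorem Spot.le_R {k l m : Spot} (h1 : k.le l) (h2 : l.R m) : k.R m :=
  ⟨fun τ hτ => h1.2.2.trans (h2.1 τ hτ), h2.2.1.trans h1.2.1, h1.2.2.trans_ssubset h2.2.2⟩

theorem Spot.R_le {k l m : Spot} (h1 : k.R l) (h2 : l.le m) : k.R m :=
  ⟨fun τ hτ => h1.1 τ (h2.2.1 hτ), h2.2.1.trans h1.2.1, h1.2.2.trans_subset h2.2.2⟩

variable {Φ : Finset Form} {K : Finset Spot}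

theorem IsSys.R_le (hK : IsSys Φ K) {k l : Spot} (hk : k ∈ K) (hl : l ∈ K) (h : k.R l) : k.le l :=
  ⟨(hK.tr k hk).trans (h.1 _ (hK.tE l hl)), h.2.1, h.2.2.subset⟩

/-- Finite trees with spots. -/
inductive Nd : Type
  | mk (k : Spot) (n : ℕ) (f : Fin n → Nd) : Nd

/-- The spot of a node. -/
def Nd.tag : Nd → Spot
  | .mk k _ _ => k

/-- All spots lie in `K` and increase. -/
def Nd.ok (K : Finset Spot) : Nd → Prop
  | .mk k _ f => k ∈ K ∧ ∀ i, (f i).ok K ∧ k.le (f i).tag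

/-- `v.up u` says that `v` is above `u`. -/
def Nd.up (v : Nd) : Nd → Prop
  | .mk k n f => v = .mk k n f ∨ k.R v.tag ∨ ∃ i, Nd.up v (f i)

theorem Nd.ok_tag {u : Nd} (h : u.ok K) : u.tag ∈ K := by
  cases u
  exact h.1

theorem Nd.up_refl (u : Nd) : u.up u := by
  cases u
  exact Or.inl rfl

theorem Nd.up_tag (hK : IsSys Φ K) {v : Nd} (hv : v.ok K) : ∀ {u : Nd}, u.ok K → v.up u →
    u.tag.le v.tag
  | .mk k n f, hu, h => by
    rcases h with h | h | ⟨i, h⟩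
    · rw [h]
      exact Spot.le_refl _
    · exact hK.R_le hu.1 (Nd.ok_tag hv) h
    · exact Spot.le_trans (hu.2 i).2 (Nd.up_tag hK hv (hu.2 i).1 h)

theorem Nd.up_R {v u : Nd} (h : u.tag.R v.tag) : v.up u := by
  cases u
  exact Or.inr (Or.inl h)

theorem Nd.up_trans (hK : IsSys Φ K) {v w : Nd} (hv : v.ok K) (hw : w.ok K) (h1 : w.up v) :
    ∀ {u : Nd}, u.ok K → v.up u → w.up u
  | .mk k n f, hu, h => by
    rcases h with h | h | ⟨i, h⟩
    · rw [← h]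
      exact h1
    · exact Or.inr (Or.inl (Spot.R_le h (Nd.up_tag hK hw hv h1)))
    · exact Or.inr (Or.inr ⟨i, Nd.up_trans hK hv hw h1 (hu.2 i).1 h⟩)

/-- The tree model. -/
def tm (hK : IsSys Φ K) (ix : Spot → ℕ) : Mdl where
  W := {u : Nd // u.ok K}
  le u v := v.1.up u.1
  R u v := u.1.tag.R v.1.tag
  V u n := ∃ k ∈ K, ix k = n ∧ k.le u.1.tag
  refl u := Nd.up_refl _
  trans := fun {u v w} h1 h2 => Nd.up_trans hK v.2 w.2 h2 u.2 h1
  R_le := fun {u v} h => Nd.up_R h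
  le_R := fun {u v w} h1 h2 => Spot.le_R (Nd.up_tag hK v.2 u.2 h1) h2
  R_leR := fun {u v w} h1 h2 => Spot.R_le h1 (Nd.up_tag hK w.2 v.2 h2)
  wf := by
    refine Subrelation.wf (r := InvImage (· < ·) fun u : {u : Nd // u.ok K} =>
      (Φ \ u.1.tag.r).card) ?_ (InvImage.wf _ Nat.lt_wfRel.wf)
    intro u v h
    have hu := hK.rs _ (Nd.ok_tag u.2)
    refine Finset.card_lt_card ?_
    obtain ⟨h1, h2⟩ := Finset.ssubset_iff_exists_cons_subset.1 h.2.2
    obtain ⟨hc, h3⟩ := h2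
    refine Finset.ssubset_iff_of_subset (Finset.sdiff_subset_sdiff (Finset.Subset.refl _)
      h.2.2.subset) |>.2 ⟨h1, ?_, ?_⟩
    · exact Finset.mem_sdiff.2 ⟨hu (h3 (Finset.mem_cons_self _ _)), hc⟩
    · intro h4
      exact (Finset.mem_sdiff.1 h4).2 (h3 (Finset.mem_cons_self _ _))
  mono := fun {u v n} h ⟨k, hk, h1, h2⟩ => ⟨k, hk, h1, Spot.le_trans h2 (Nd.up_tag hK v.2 u.2 h)⟩

theorem tm_closed (hK : IsSys Φ K) {ix : Spot → ℕ} (hix : Set.InjOn ix K) :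
    (tm hK ix).Closed := by
  intro w
  refine ⟨fun {u v} hu h => (tm hK ix).R_leR hu h, ?_⟩
  rintro ⟨u, hu⟩ huw vs hvs
  have htag : ∀ v ∈ vs, u.tag.le v.1.tag := by
    intro v hv
    obtain ⟨k, hk, h1, h2⟩ := (hvs v hv).2.1 (ix u.tag) ⟨u.tag, Nd.ok_tag hu, rfl, Spot.le_refl _⟩
    have h3 : k = u.tag := hix hk (Nd.ok_tag hu) h1
    rwa [h3] at h2
  let f : Fin vs.length → Nd := fun i => (vs.get i).1
  have hok : (Nd.mk u.tag vs.length f).ok K :=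
    ⟨Nd.ok_tag hu, fun i => ⟨(vs.get i).2, htag _ (List.get_mem _ _)⟩⟩
  refine ⟨⟨Nd.mk u.tag vs.length f, hok⟩, huw, ?_, fun n => Iff.rfl, fun z => Iff.rfl, ?_⟩
  · intro v hv
    obtain ⟨i, hi⟩ := List.get_of_mem hv
    refine Or.inr (Or.inr ⟨i, ?_⟩)
    simp only [f, hi]
    exact Nd.up_refl _
  · intro z hz
    rcases hz with hz | hz | ⟨i, hz⟩
    · exact Or.inl (Subtype.ext hz)
    · exact Or.inr (Or.inl hz)
    · exact Or.inr (Or.inr ⟨vs.get i, List.get_mem _ _, hz⟩)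

/-- An injective index function. -/
theorem exists_ix (K : Finset Spot) : ∃ ix : Spot → ℕ, Set.InjOn ix K := by
  classical
  refine ⟨fun k => K.toList.idxOf k, fun k hk l _ h => ?_⟩
  exact List.idxOf_inj (Finset.mem_toList.2 hk) |>.1 h

end HAs
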